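import Pool.Agent.MP_2033ac_nt.AA.Defs
import Pool.Agent.MP_2033ac_nt.PN.RBOX
import Pool.Agent.MP_2033ac_nt.PN.RWIN

/-! Primes in almost all short intervals: mean squares of windows. -/

namespace Pool.Agent.MP_2033ac_nt.AA
open Finset Real Filter
open Pool.Agent.MP_71ac24_nt.H14 (ei ei_add norm_ei ei_zero conj_ei norm_ei_sub)
open Pool.Agent.MP_71ac24_nt Pool.Agent.MP_a404e6_nt.W Pool.Agent.MP_2033ac_nt.PN

theorem par_orth (N : ℕ) (d : ℤ) (h1 : d ≠ 0) (h2 : |d| < N) :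
    ∑ j ∈ range N, ei (d * (j * (2 * π / N))) = 0 := by
  have N0 : 0 < N := by have := abs_nonneg d; omega
  have N0' : (0 : ℝ) < N := by exact_mod_cast N0
  have e : ∀ j : ℕ, ei (d * (j * (2 * π / N))) = ei (d * (2 * π / N)) ^ j := fun j => by
    induction j with
    | zero => simp [ei_zero]
    | succ j ih => rw [pow_succ, ← ih, ← ei_add]; congr 1; push_cast; ring
  have p : IsPrimitiveRoot (Complex.exp (2 * π * Complex.I / N)) N :=
    Complex.isPrimitiveRoot_exp N N0.ne'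
  have e2 : ei (d * (2 * π / N)) = Complex.exp (2 * π * Complex.I / N) ^ d := by
    rw [← Complex.exp_int_mul, ei]
    congr 1
    push_cast
    ring
  have n1 : ei (d * (2 * π / N)) ≠ 1 := by
    rw [e2, Ne, p.zpow_eq_one_iff_dvd]
    intro hd
    exact h1 (Int.eq_zero_of_abs_lt_dvd hd h2)
  have n2 : ei (d * (2 * π / N)) ^ N = 1 := by
    rw [e2, ← zpow_natCast, ← zpow_mul, mul_comm d, zpow_mul, zpow_natCast, p.pow_eq_one, one_zpow]
  simp only [e]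
  rw [geom_sum_eq n1, n2, sub_self, zero_div]

theorem par_row : PAR_s := by
  intro N U L T c hN hT
  have key : ((Sq N L (fun w => ‖∑ t ∈ T, c t * ei (-(t * w))‖) : ℝ) : ℂ) =
      ((N * ∑ t ∈ T, ‖c t‖ ^ 2 : ℝ) : ℂ) := by
    have e1 : ∀ j : ℕ, ((‖∑ t ∈ T, c t * ei (-(t * (L - j * (2 * π / N))))‖ ^ 2 : ℝ) : ℂ) =
        ∑ t ∈ T, ∑ s ∈ T, c t * (starRingEnd ℂ) (c s) * ei (-((t - s : ℤ) * L)) *
          ei ((t - s : ℤ) * (j * (2 * π / N))) := fun j => by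
      rw [Complex.ofReal_pow, ← Complex.mul_conj', map_sum, sum_mul_sum]
      refine sum_congr rfl fun t _ => sum_congr rfl fun s _ => ?_
      rw [map_mul, conj_ei, mul_mul_mul_comm, ← ei_add, mul_assoc (c t * _), ← ei_add]
      congr 2
      push_cast
      ring
    rw [Sq, Complex.ofReal_sum, sum_congr rfl fun j _ => e1 j, sum_comm, mul_sum,
      Complex.ofReal_sum]
    refine sum_congr rfl fun t ht => ?_
    rw [sum_comm, sum_eq_single t]
    · simp [ei_zero, Complex.mul_conj']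
    · intro s hs hst
      rw [← mul_sum, par_orth N (t - s) (sub_ne_zero.2 hst.symm), mul_zero]
      have a1 := mem_Icc.1 (hT ht)
      have a2 := mem_Icc.1 (hT hs)
      rw [abs_lt]
      omega
    · exact fun h => absurd ht h
  exact (Complex.ofReal_injective key).le

theorem nsum_row : NSUM_s := by
  intro ι s σ L η Δ Q N f H
  choose! R R0 R1 R2 using H
  refine ⟨fun w => ∑ i ∈ s, R i w, fun w => sum_nonneg fun i hi => R0 i hi w, ?_,
    fun w w' a1 a2 a3 a4 a5 => ?_⟩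
  · have e1 : Sq N L (fun w => ∑ i ∈ s, R i w) ≤
        ∑ j ∈ range N, #s * ∑ i ∈ s, R i (L - j * (2 * π / N)) ^ 2 :=
      sum_le_sum fun j _ => sq_sum_le_card_mul_sum_sq
    rw [← mul_sum, sum_comm] at e1
    have e2 : ∑ i ∈ s, ∑ j ∈ range N, R i (L - j * (2 * π / N)) ^ 2 ≤ #s • Q :=
      sum_le_card_nsmul _ _ _ fun i hi => R1 i hi
    rw [nsmul_eq_mul] at e2
    refine e1.trans ((mul_le_mul_of_nonneg_left e2 (Nat.cast_nonneg _)).trans_eq ?_)
    ring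
  · rw [Hw_sum, Hw_sum, ← sum_sub_distrib]
    refine (abs_sum_le_sum_abs _ _).trans
      ((sum_le_sum fun i hi => R2 i hi w w' a1 a2 a3 a4 a5).trans_eq ?_)
    rw [sum_add_distrib, sum_add_distrib, sum_const, nsmul_eq_mul]

theorem nsm_row : NSM_s := by
  rintro σ L η Δ Q a M N f ha - ⟨R, R0, R1, R2⟩
  have M0 : 0 ≤ M := (abs_nonneg a).trans ha
  refine ⟨fun w => M * R w, fun w => mul_nonneg M0 (R0 w), ?_, fun w w' a1 a2 a3 a4 a5 => ?_⟩
  · have e : Sq N L (fun w => M * R w) = M ^ 2 * Sq N L R := by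
      simp only [Sq, mul_pow, mul_sum]
    rw [e]
    exact mul_le_mul_of_nonneg_left R1 (sq_nonneg M)
  · rw [Hw_smul, Hw_smul, ← mul_sub, abs_mul]
    refine (mul_le_mul ha (R2 w w' a1 a2 a3 a4 a5) (abs_nonneg _) M0).trans_eq ?_
    ring

theorem nz_row : NZ_s := by
  intro σ L η Δ Q N f h1 h2 H
  refine ⟨fun _ => 0, fun _ => le_rfl, by simpa [Sq] using h2, fun w w' a1 a2 a3 a4 _ => ?_⟩
  rw [H w a1 a2, H w' a3 a4]
  simpa using h1

theorem nmo_row : NMO_s := by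
  rintro σ L η Δ Q Δ' Q' N f g hσ hE h1 h2 ⟨R, R0, R1, R2⟩
  refine ⟨R, R0, R1.trans h2, fun w w' a1 a2 a3 a4 a5 => ?_⟩
  rw [Hw_congr hE (by linarith), Hw_congr hE (by linarith)]
  linarith [R2 w w' a1 a2 a3 a4 a5]

theorem wl2_row (hPAR : PAR_s) : WL2_s := by
  intro A
  obtain ⟨C, C0, c, hc, H⟩ := fs ps ps_smooth (fun _ => ps_zero) A
  refine ⟨3 * C + C ^ 2, by positivity, fun b σ t0 a a' B D L U N S s0 s1 hU hN t1 hB hs hD => ?_⟩
  have D0 : 0 ≤ D := (norm_nonneg _).trans (hD 0)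
  have B0 : 0 ≤ B := (abs_nonneg _).trans (hB 0)
  have U0 : (0 : ℝ) < U := by exact_mod_cast hU
  have hc' : ∀ t : ℤ, ‖(σ : ℂ) * c (σ * t)‖ ≤ σ * C := fun t => by
    rw [norm_mul, Complex.norm_real, norm_of_nonneg s0.le]
    exact mul_le_mul_of_nonneg_left ((hc _).trans (div_le_self C0.le
      (one_le_pow₀ (by linarith [abs_nonneg (σ * t)])))) s0.le
  have one : ∀ w : ℝ, w - 3 ≤ a → a' ≤ w + 3 → ‖(Hw σ b w : ℂ) - ∑ t ∈ Icc (-(U : ℤ)) U,
      σ * c (σ * t) * ei (-(t * w)) * Dp b t‖ ≤ C * (B * exp a' / (σ * U) ^ (A + 1)) := by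
    intro w g1 g2
    simp only [Hw_eq s0 fun m hm => .inl (hs.zero hm), Dp_eq fun _ => hs.zero, mul_sum,
      Complex.ofReal_sum]
    rw [sum_comm, ← sum_sub_distrib]
    refine (norm_sum_le_of_le _ (n := fun _ => B * (C / (σ * U) ^ (A + 1))) fun m _ => ?_).trans ?_
    · rcases eq_or_ne (b m) 0 with e | e
      · simp only [e, zero_mul, Complex.ofReal_zero, mul_zero, sum_const_zero, sub_zero, norm_zero]
        positivity
      refine le_trans (le_of_eq ?_) (mul_le_mul (hB m) (H σ (Real.log m - w) U s0 s1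
        (abs_le.2 ⟨by linarith [(hs m e).1], by linarith [(hs m e).2]⟩) hU) (norm_nonneg _) B0)
      rw [← Real.norm_eq_abs, ← Complex.norm_real, ← norm_mul, mul_sub, mul_sum, Complex.ofReal_mul]
      congr 2
      refine sum_congr rfl fun t _ => ?_
      rw [mul_sub, sub_eq_neg_add, ei_add]
      ring
    · rw [sum_const, Nat.card_Icc, Nat.add_sub_cancel, nsmul_eq_mul]
      refine (mul_le_mul_of_nonneg_right (Nat.floor_le (exp_pos a').le) (by positivity)).trans_eq ?_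
      ring
  have three : (#((Icc (-(U : ℤ)) U).filter fun t : ℤ => |(t : ℝ)| ≤ t0) : ℝ) ≤ 3 * t0 := by
    have k1 : (Icc (-(U : ℤ)) U).filter (fun t : ℤ => |(t : ℝ)| ≤ t0) ⊆
        Icc (-(⌊t0⌋₊ : ℤ)) ⌊t0⌋₊ := fun t ht => by
      have := Nat.le_floor (n := t.natAbs) (by simpa using (mem_filter.1 ht).2 : _ ≤ t0)
      rw [mem_Icc]
      omega
    have k2 := card_le_card k1
    rw [Int.card_Icc, show ((⌊t0⌋₊ : ℤ) + 1 - -⌊t0⌋₊).toNat = 2 * ⌊t0⌋₊ + 1 by omega] at k2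
    have k3 : (_ : ℝ) ≤ _ := Nat.cast_le.2 k2
    push_cast at k3
    linarith [Nat.floor_le (show 0 ≤ t0 by linarith)]
  set T := (Icc (-(U : ℤ)) U \ S).filter fun t : ℤ => t0 < |(t : ℝ)| with hT
  have TI : T ⊆ Icc (-(U : ℤ)) U := (filter_subset _ _).trans sdiff_subset
  refine ⟨fun w => ‖∑ t ∈ T, σ * c (σ * t) * Dp b t * ei (-(t * w))‖, fun w => norm_nonneg _, ?_,
    fun y y' h1 h2 h3 h4 => ?_⟩
  · refine (hPAR N U L T (fun t => σ * c (σ * t) * Dp b t) hN TI).trans ?_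
    have e1 : ∑ t ∈ T, ‖σ * c (σ * t) * Dp b t‖ ^ 2 ≤ ∑ t ∈ T, (σ * C) ^ 2 * ‖Dp b t‖ ^ 2 :=
      sum_le_sum fun t _ => by
        rw [norm_mul, mul_pow]
        exact mul_le_mul_of_nonneg_right (pow_le_pow_left₀ (norm_nonneg _) (hc' t) 2) (sq_nonneg _)
    rw [← mul_sum] at e1
    have e2 : ∑ t ∈ T, ‖Dp b t‖ ^ 2 ≤ ∑ t ∈ Icc (-(U : ℤ)) U \ S, ‖Dp b t‖ ^ 2 :=
      sum_le_sum_of_subset_of_nonneg (filter_subset _ _) fun t _ _ => sq_nonneg _
    have e3 : 0 ≤ ∑ t ∈ Icc (-(U : ℤ)) U \ S, ‖Dp b t‖ ^ 2 := sum_nonneg fun t _ => sq_nonneg _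
    have e4 := mul_le_mul_of_nonneg_left
      (e1.trans (mul_le_mul_of_nonneg_left e2 (sq_nonneg _))) (Nat.cast_nonneg (α := ℝ) N)
    have e5 : 0 ≤ 3 * C * (σ ^ 2 * N * ∑ t ∈ Icc (-(U : ℤ)) U \ S, ‖Dp b t‖ ^ 2) := by positivity
    linarith
  have two : ∀ t ∈ Icc (-(U : ℤ)) U \ T, ‖σ * c (σ * t) * ei (-(t * y)) * Dp b t -
      σ * c (σ * t) * ei (-(t * y')) * Dp b t‖ ≤ σ * C * ((if |(t : ℝ)| ≤ t0 then
        t0 * |y - y'| * D else 0) + if t ∈ S ∧ t0 < |(t : ℝ)| then 2 * ‖Dp b t‖ else 0) := by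
    intro t ht
    rw [← sub_mul, ← mul_sub, norm_mul, norm_mul, mul_assoc]
    refine mul_le_mul (hc' t) ?_ (by positivity) (by positivity)
    rcases le_or_gt |(t : ℝ)| t0 with g | g
    · rw [if_pos g, if_neg fun h => not_lt.2 g h.2, add_zero]
      refine mul_le_mul ((norm_ei_sub _ _).trans ?_) (hD _) (norm_nonneg _)
        (by have := t1.trans' zero_le_one; positivity)
      rw [neg_sub_neg, ← mul_sub, abs_mul, abs_sub_comm]
      exact mul_le_mul_of_nonneg_right g (abs_nonneg _)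
    · have tS : t ∈ S := by
        by_contra hn
        exact (mem_sdiff.1 ht).2 (mem_filter.2 ⟨mem_sdiff.2 ⟨(mem_sdiff.1 ht).1, hn⟩, g⟩)
      rw [if_pos (And.intro tS g), if_neg (not_le.2 g), zero_add]
      exact mul_le_mul_of_nonneg_right ((norm_sub_le _ _).trans (by
        rw [norm_ei, norm_ei, one_add_one_eq_two])) (norm_nonneg _)
  have k := norm_sum_le_of_le _ two
  rw [sum_sub_distrib, ← mul_sum, sum_add_distrib, ← sum_filter, ← sum_filter, sum_const,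
    nsmul_eq_mul, ← mul_sum] at k
  have k1 : (#((Icc (-(U : ℤ)) U \ T).filter fun t : ℤ => |(t : ℝ)| ≤ t0) : ℝ) ≤ 3 * t0 :=
    le_trans (by exact_mod_cast card_le_card (filter_subset_filter _ sdiff_subset)) three
  have k2 : ∑ t ∈ (Icc (-(U : ℤ)) U \ T).filter (fun t : ℤ => t ∈ S ∧ t0 < |(t : ℝ)|), ‖Dp b t‖ ≤
      ∑ t ∈ S.filter (fun t : ℤ => t0 < |(t : ℝ)|), ‖Dp b t‖ :=
    sum_le_sum_of_subset_of_nonneg (fun t ht => mem_filter.2 (mem_filter.1 ht).2)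
      fun t _ _ => norm_nonneg _
  have o1 := one y h1 h2
  have o2 := one y' h3 h4
  have sp : ∀ w : ℝ, ∑ t ∈ Icc (-(U : ℤ)) U, σ * c (σ * t) * ei (-(t * w)) * Dp b t =
      ∑ t ∈ Icc (-(U : ℤ)) U \ T, σ * c (σ * t) * ei (-(t * w)) * Dp b t +
        ∑ t ∈ T, σ * c (σ * t) * Dp b t * ei (-(t * w)) := fun w => by
    rw [← sum_sdiff TI]
    congr 1
    exact sum_congr rfl fun t _ => by ring
  rw [sp] at o1 o2
  have k4 := mul_le_mul_of_nonneg_left (mul_le_mul_of_nonneg_right k1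
    (show 0 ≤ t0 * |y - y'| * D by have := t1.trans' zero_le_one; positivity))
    (show 0 ≤ σ * C by positivity)
  have k3 := mul_le_mul_of_nonneg_left k2 (show 0 ≤ σ * C by positivity)
  have k5 : 0 ≤ σ * C * ∑ t ∈ S.filter (fun t : ℤ => t0 < |(t : ℝ)|), ‖Dp b t‖ := by
    positivity
  have k6 : 0 ≤ C * (B * exp a' / (σ * U) ^ (A + 1)) := by positivity
  have k7 : 0 ≤ C ^ 2 * (σ * t0 ^ 2 * |y - y'| * D +
      σ * ∑ t ∈ S.filter (fun t : ℤ => t0 < |(t : ℝ)|), ‖Dp b t‖ +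
        B * exp a' / (σ * U) ^ (A + 1)) := by positivity
  have tri : ∀ p q u v r r' : ℂ, ‖p - q‖ ≤ ‖p - (u + r)‖ + ‖q - (v + r')‖ + ‖u - v‖ + ‖r‖ + ‖r'‖ :=
    fun p q u v r r' => by
      have e : p - q = (p - (u + r)) - (q - (v + r')) + (u - v) + r - r' := by ring
      rw [e]
      refine (norm_sub_le _ _).trans (add_le_add_left ((norm_add_le _ _).trans (add_le_add_left
        ((norm_add_le _ _).trans (add_le_add_left (norm_sub_le _ _) _)) _)) _)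
  rw [← Real.norm_eq_abs, ← Complex.norm_real, Complex.ofReal_sub]
  refine (tri _ _ _ _ _ _).trans (add_le_add_left (add_le_add_left
    ((add_le_add (add_le_add o1 o2) k).trans ?_) _) _)
  linarith

theorem box2_big (hSQ : SQ_s) {C0 L : ℝ} {A B U : ℕ} {g : Fin 24 → AF} {y : Fin 24 → ℝ}
    {T : Finset ℤ} (hC : 0 < C0) (hL : 100 ≤ L) (hAB : A + 1 ≤ B) (E1 : 8 * C0 * exp 3 ≤ L)
    (E2 : 2 * C0 * exp 3 * L ^ A ≤ exp (1 / 100 * L)) (hb : ∀ i, Bd (g i) 1)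
    (hs : ∀ i, Sp (g i) (y i) (y i + 1 / 20)) (h2 : ∑ i, y i ≤ L + 1)
    (hU : (U : ℝ) ≤ exp (7 * L / 8)) {a : Fin 24} (ha : 9 * L / 10 < y a)
    (hm : Sm C0 (g a) (y a)) (hmem : ∀ t ∈ T, L ^ B < |(t : ℝ)| ∧ |(t : ℝ)| ≤ U)
    (hT : (#T : ℝ) ≤ exp (L / 100)) :
    ∑ t ∈ T, ∏ i, ‖Dp (g i) t‖ ≤ exp L / L ^ A := by
  have L1 : (1 : ℝ) ≤ L := by linarith
  have L0 : (0 : ℝ) < L := by linarith
  have B1 : (1 : ℝ) ≤ L ^ B := one_le_pow₀ L1
  have s1 := hSQ (L ^ B) T B1 fun t ht => (hmem t ht).1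
  have s2 : ∑ t ∈ T, |(t : ℝ)| ≤ exp (177 * L / 200) := by
    refine (sum_le_card_nsmul _ _ _ fun t ht => (hmem t ht).2.trans hU).trans ?_
    rw [nsmul_eq_mul]
    refine (mul_le_mul_of_nonneg_right hT (exp_pos _).le).trans_eq ?_
    rw [← exp_add]; congr 1; ring
  have s4 : ∑ t ∈ T, ‖Dp (g a) t‖ ≤ C0 * (exp (y a) * (4 / L ^ B) + exp (177 * L / 200)) := by
    have : ∑ t ∈ T, ‖Dp (g a) t‖ ≤
        ∑ t ∈ T, C0 * (exp (y a) * (1 / (t : ℝ) ^ 2) + |(t : ℝ)|) := by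
      refine sum_le_sum fun t ht => ?_
      have := hm.2 (by linarith) t (by linarith [(hmem t ht).1])
      rwa [div_eq_mul_one_div] at this
    refine this.trans ?_
    rw [← mul_sum, sum_add_distrib, ← mul_sum]
    refine mul_le_mul_of_nonneg_left (add_le_add ?_ s2) hC.le
    exact mul_le_mul_of_nonneg_left s1 (exp_pos _).le
  have s5 : ∑ t ∈ T, ∏ i, ‖Dp (g i) t‖ ≤ (∑ t ∈ T, ‖Dp (g a) t‖) * exp (L + 3 - y a) := by
    rw [sum_mul]
    exact sum_le_sum fun t _ => box_rest hb hs h2 a t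
  have s6 : exp (y a) * exp (L + 3 - y a) = exp 3 * exp L := by
    rw [← exp_add, ← exp_add]; congr 1; ring
  have s7 : exp (177 * L / 200) * exp (L + 3 - y a) ≤ exp 3 * exp (L - 1 / 100 * L) := by
    rw [← exp_add, ← exp_add]; exact exp_le_exp.2 (by linarith)
  have s8 : C0 * exp 3 * exp (L - 1 / 100 * L) ≤ exp L / L ^ A / 2 :=
    box_half L0 (by linarith)
  have s9 : C0 * exp 3 * (4 / L ^ B) ≤ 1 / L ^ A / 2 := by
    have p : 0 < L ^ A := pow_pos L0 A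
    have q : L ^ A * L ≤ L ^ B := by
      rw [← pow_succ]; exact pow_le_pow_right₀ L1 hAB
    rw [div_div, mul_div_assoc', div_le_div_iff₀ (by positivity) (by positivity)]
    nlinarith
  have s10 : C0 * exp 3 * (4 / L ^ B) * exp L ≤ 1 / L ^ A / 2 * exp L :=
    mul_le_mul_of_nonneg_right s9 (exp_pos _).le
  have s11 := mul_le_mul_of_nonneg_right s4 (exp_pos (L + 3 - y a)).le
  have s12 : C0 * (exp (y a) * (4 / L ^ B) + exp (177 * L / 200)) * exp (L + 3 - y a) =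
      C0 * (4 / L ^ B) * (exp (y a) * exp (L + 3 - y a)) +
        C0 * (exp (177 * L / 200) * exp (L + 3 - y a)) := by ring
  have s13 := mul_le_mul_of_nonneg_left s7 hC.le
  have s14 : 1 / L ^ A / 2 * exp L = exp L / L ^ A / 2 := by ring
  rw [s12, s6] at s11
  linarith

theorem box2_lv {U : ℕ} {F : ℤ → ℝ} {y c e L : ℝ} (hF : ∀ t, 0 ≤ F t) (h : LV U F y c e L) :
    LV U (fun t => F t ^ 2 * exp (-(1 / 20))) (2 * y) c e L := fun l hl => by
  refine le_trans ?_ (h l hl)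
  unfold cnt
  refine Nat.cast_le.2 (card_le_card fun t ht => ?_)
  obtain ⟨h1, h2⟩ := mem_filter.1 ht
  refine mem_filter.2 ⟨h1, ?_⟩
  have e1 : exp ((1 - l) * (2 * y)) = exp ((1 - l) * y) ^ 2 := by
    rw [← exp_nat_mul]; congr 1; push_cast; ring
  have e2 : F t ^ 2 * exp (-(1 / 20)) ≤ F t ^ 2 :=
    mul_le_of_le_one_right (sq_nonneg _) (exp_le_one_iff.2 (by norm_num))
  rw [e1] at h2
  exact (pow_le_pow_iff_left₀ (exp_pos _).le (hF t) two_ne_zero).1 (h2.trans e2)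

theorem box2_row (hSQ : SQ_s) (hLVA : LVA_s) (hLVZ : LVZ_s) (hGEN : GEN_s) (hSPA : SPA_s) :
    BOX2_s := by
  intro C0 c hC hc hc'
  have k0 : 0 < min (c / 48) (1 / 300) := lt_min (by positivity) (by norm_num)
  have k1 : min (c / 48) (1 / 300) ≤ c / 48 := min_le_left _ _
  have k2 : min (c / 48) (1 / 300 : ℝ) ≤ 1 / 300 := min_le_right _ _
  generalize min (c / 48) (1 / 300 : ℝ) = κ at k0 k1 k2
  obtain ⟨l1, l2, -, hS⟩ := hSPA C0 κ k0 k2
  obtain ⟨l0, m0, m1, m2⟩ : ∃ l0 : ℝ, 0 < l0 ∧ 3 * l0 ≤ l1 ∧ l0 ≤ 1 / 600 :=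
    ⟨min (l1 / 3) (1 / 600), by positivity, by linarith [min_le_left (l1 / 3) (1 / 600)],
      min_le_right _ _⟩
  have e0 : 0 < c * l0 / 16 := by positivity
  refine ⟨c * l0 / 4, by positivity, fun A => ?_⟩
  obtain ⟨B1, hB1⟩ := hS A
  obtain ⟨P0, hP⟩ := eventually_atTop.1 ((hLVA (κ / 2) _ c (half_pos k0) e0 hc hc').and
    ((hLVZ C0 _ c e0 hc hc').and (hGEN c κ l0 k0 (by linarith) hc' m0 (by linarith))))
  refine ⟨B1 + A + 1, ?_⟩
  filter_upwards [hB1, eventually_ge_atTop 100, eventually_ge_atTop P0,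
    eventually_ge_atTop (8 * C0 * exp 3), ev_lin (2 * C0 * exp 3) (1 / 100) (by norm_num) A,
    bx_ev (show 0 < c * l0 / 4 by positivity) 4] with L spa hL hL0 E1 E2 E3
  intro g y U hb hs hm hy1 h1 h2 hU
  have L1 : (1 : ℝ) ≤ L := by linarith
  obtain ⟨P, hPe⟩ : ∃ P, P = ∑ i, 2 * y i := ⟨_, rfl⟩
  have P1 : 2 * L - 4 ≤ P := by rw [hPe, ← mul_sum]; linarith
  have P2 : P ≤ 2 * L + 2 := by rw [hPe, ← mul_sum]; linarith
  obtain ⟨lva, lvz, gen⟩ := hP P (by linarith)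
  have cL : 0 ≤ c * (L - 2) := mul_nonneg hc.le (by linarith)
  have cP : c * P ≤ 1 / 10 * P := mul_le_mul_of_nonneg_right hc' (by linarith)
  have hU' : (U : ℝ) ≤ exp (7 * L / 8) := hU.trans (exp_le_exp.2 (by linarith))
  have hUP : (U : ℝ) ≤ exp (7 * ((1 - c) * P) / 16) := hU.trans (exp_le_exp.2 (by
    have := mul_le_mul_of_nonneg_left P1 (show 0 ≤ 1 - c by linarith)
    linarith))
  have tb : ∀ i (t : ℝ), ‖Dp (g i) t‖ ≤ exp (y i + 1 / 20) := fun i t => by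
    simpa using Dp_le (hs i) (hb i) t
  obtain ⟨S, hS1, hS2, hS3⟩ := gen U (fun i t => ‖Dp (g i) t‖ ^ 2 * exp (-(1 / 20)))
    (fun i => 2 * y i) (hU'.trans (exp_le_exp.2 (by linarith))) (fun i t => by positivity)
    (fun i t => by
      refine (mul_le_mul_of_nonneg_right (pow_le_pow_left₀ (norm_nonneg _) (tb i t) 2)
        (exp_pos _).le).trans_eq ?_
      rw [← exp_nat_mul, ← exp_add]; congr 1; push_cast; ring)
    (by linarith) (by linarith) (fun i hi => by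
      refine box2_lv (F := fun t : ℤ => ‖Dp (g i) t‖) (fun t => norm_nonneg _) ?_
      by_cases h : y i ≤ (1 - c) * P / 4
      · exact lva (g i) (y i) U (hb i) (hs i) (by linarith) h hUP
      · push Not at h
        refine lvz (g i) (y i) U ?_ (hs i) h.le (by linarith [hy1 i]) hUP
        rcases hm i with h' | h'
        · exact h'.1
        · have := h'.2
          linarith)
  have l0P : l0 * P ≤ l0 * (3 * L) := mul_le_mul_of_nonneg_left (by linarith) m0.le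
  have l0L : 3 * l0 * L ≤ l1 * L := mul_le_mul_of_nonneg_right m1 (by linarith)
  have l0L' : l0 * L ≤ 1 / 600 * L := mul_le_mul_of_nonneg_right m2 (by linarith)
  refine ⟨S, ?_, ?_⟩
  · have hmem : ∀ t ∈ S.filter (fun t : ℤ => L ^ (B1 + A + 1) < |(t : ℝ)|),
        L ^ (B1 + A + 1) < |(t : ℝ)| ∧ |(t : ℝ)| ≤ U := fun t ht => by
      obtain ⟨a1, a2⟩ := mem_filter.1 ht
      have h : |t| ≤ (U : ℤ) := abs_le.2 (mem_Icc.1 (hS1 a1))
      exact ⟨a2, by exact_mod_cast h⟩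
    have hc : (#(S.filter fun t : ℤ => L ^ (B1 + A + 1) < |(t : ℝ)|) : ℝ) ≤ exp (2 * l0 * P) :=
      le_trans (by exact_mod_cast card_filter_le _ _) hS2
    by_cases hy : ∀ i, y i ≤ 9 * L / 10
    · refine spa g y _ hy hb hs (fun i => (hm i).imp_left fun h => h.1) h1 h2
        (fun t ht => ⟨lt_of_le_of_lt (pow_le_pow_right₀ L1 (by omega)) (hmem t ht).1,
          (hmem t ht).2.trans (hU'.trans (exp_le_exp.2 (by linarith)))⟩)
        (hc.trans (exp_le_exp.2 (by linarith)))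
    · push Not at hy
      obtain ⟨a, ha⟩ := hy
      refine box2_big hSQ hC hL (by omega) E1 E2 hb hs h2 hU' ha ?_ hmem
        (hc.trans (exp_le_exp.2 (by linarith)))
      rcases hm a with h | h
      · exact h
      · have := h.2
        linarith
  · have e1 : ∀ t : ℤ, (∏ i, ‖Dp (g i) t‖) ^ 2 =
        exp (6 / 5) * ∏ i : Fin 24, ‖Dp (g i) t‖ ^ 2 * exp (-(1 / 20)) := fun t => by
      rw [prod_mul_distrib, prod_const, card_univ, Fintype.card_fin, ← exp_nat_mul, prod_pow,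
        mul_left_comm, ← exp_add]
      norm_num
    rw [sum_congr rfl fun t _ => e1 t, ← mul_sum]
    refine (mul_le_mul_of_nonneg_left hS3 (exp_pos _).le).trans ?_
    rw [← exp_add]
    refine exp_le_exp.2 ?_
    have c1 : c * l0 ≤ 1 := by nlinarith
    have := mul_le_mul_of_nonneg_left P2 (show 0 ≤ 1 - c * l0 / 4 by linarith)
    have c0 : 0 < c * l0 := by positivity
    linarith

theorem win2_row (hWL2 : WL2_s) (hBOX2 : BOX2_s) (hNZ : NZ_s) : WIN2_s := by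
  intro C0 c hC0 hc hc'
  obtain ⟨β, β0, H⟩ := hBOX2 C0 c hC0 hc hc'
  refine ⟨β / 2, half_pos β0, fun A => ?_⟩
  obtain ⟨B0, H⟩ := H (A + 1)
  obtain ⟨C, hC, hw⟩ := hWL2 ⌈6 / c⌉₊
  obtain ⟨D, hD, hb⟩ := bd_ev 24 1 one_pos
  refine ⟨2 * B0 + A + 2, ?_⟩
  filter_upwards [H, ev_lin (3 * C * D * exp 5) 1 one_pos A,
    ev_lin (2 * exp 2) (3 * c / 8) (by positivity) 0, ev_lin 200 (1 / 8) (by norm_num) 0,
    ev_lin C (β / 2) (half_pos β0) 0,
    eventually_ge_atTop (3 * C * exp 3), eventually_ge_atTop (2 : ℝ)] with L H e1 e3 e4 e6 e5 hL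
  intro g y σ N bg sp zg hy hσ hσ' hN
  rw [pow_zero, mul_one] at e3 e4 e6
  have L1 : 1 ≤ L := by linarith
  have cL : 0 ≤ c * L := by positivity
  have cL' : c * L ≤ 1 / 10 * L := mul_le_mul_of_nonneg_right hc' (by linarith)
  rw [sh] at hσ hσ'
  have s0 : 0 < σ := (exp_pos _).trans_le hσ
  have s1 : σ ≤ 1 / 100 := by
    have h : exp (-(7 * ((1 - 2 * c) * L) / 8)) * exp (1 / 8 * L) ≤ 1 := by
      rw [← exp_add]
      exact exp_le_one_iff.2 (by linarith)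
    nlinarith [exp_pos (-(7 * ((1 - 2 * c) * L) / 8))]
  have s2 : 1 ≤ σ * exp L := by
    refine le_trans ?_ (mul_le_mul_of_nonneg_right hσ (exp_pos L).le)
    rw [← exp_add]
    exact one_le_exp (by linarith)
  have sb := Sp.prod univ (a := y) (b := fun i => y i + 1 / 20) fun i _ => sp i
  rw [sum_add_distrib] at sb
  simp only [sum_const, card_univ, Fintype.card_fin, nsmul_eq_mul, Nat.cast_ofNat] at sb
  by_cases h0 : ∀ w, L - 3 / 4 ≤ w → w ≤ L → Hw σ (∏ i, g i) w = 0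
  · exact hNZ _ _ _ _ _ _ _ (by positivity) (by positivity) h0
  push Not at h0
  obtain ⟨w0, w1, w2, w3⟩ := h0
  have ha : L - 2 ≤ ∑ i, y i ∧ ∑ i, y i ≤ L + 1 := by
    have := Hw_ne s0 sb w3
    constructor <;> linarith [this.1, this.2]
  have sb' : Sp (∏ i, g i) (∑ i, y i) (L + 11 / 5) := sb.mono le_rfl (by linarith [ha.2])
  have bb := hb (Fin 24) univ g (∑ i, y i) (L + 11 / 5) (by simp) (by linarith)
    (fun i _ => bg i) sb'
  have hDp : ∀ t : ℝ, ‖Dp (∏ i, g i) t‖ = ∏ i, ‖Dp (g i) t‖ := fun t => by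
    rw [Dp_prod univ fun i _ => sp i, norm_prod]
  have hD' : ∀ t : ℝ, ‖Dp (∏ i, g i) t‖ ≤ exp (L + 3) := fun t => by
    rw [hDp]
    calc _ ≤ ∏ i, exp (y i + 1 / 20) :=
          prod_le_prod (fun _ _ => norm_nonneg _) fun i _ => by
            simpa using Dp_le (sp i) (bg i) t
      _ = exp (∑ i, (y i + 1 / 20)) := (exp_sum _ _).symm
      _ ≤ _ := by
          refine exp_le_exp.2 ?_
          rw [sum_add_distrib]
          simp only [sum_const, card_univ, Fintype.card_fin, nsmul_eq_mul, Nat.cast_ofNat]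
          linarith [ha.2]
  have u0 : 1 ≤ exp (7 * ((1 - c) * (L - 2)) / 8) :=
    one_le_exp (by have := mul_nonneg (show 0 ≤ 1 - c by linarith) (show 0 ≤ L - 2 by linarith); linarith)
  have u1 := Nat.floor_le (zero_le_one.trans u0)
  have u2 := Nat.lt_floor_add_one (exp (7 * ((1 - c) * (L - 2)) / 8))
  have u3 : 1 ≤ ⌊exp (7 * ((1 - c) * (L - 2)) / 8)⌋₊ := Nat.le_floor (by exact_mod_cast u0)
  set U := ⌊exp (7 * ((1 - c) * (L - 2)) / 8)⌋₊
  have u4 : (1 : ℝ) ≤ U := by exact_mod_cast u3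
  have u5 : 2 * U < N := by
    have a1 : (U : ℝ) ≤ exp (7 / 8 * L) := u1.trans (exp_le_exp.2 (by linarith))
    have a2 : exp L = exp (1 / 8 * L) * exp (7 / 8 * L) := by rw [← exp_add]; congr 1; ring
    have a3 := mul_le_mul_of_nonneg_right e4 (exp_pos (7 / 8 * L)).le
    exact_mod_cast (by linarith : 2 * (U : ℝ) < N)
  obtain ⟨S, hX, hY⟩ := H g y U bg sp zg hy ha.1 ha.2 u1
  obtain ⟨R, R0, R1, R2⟩ := hw _ σ (L ^ B0) _ _ _ _ L U N S s0 (by linarith) u3 u5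
    (one_le_pow₀ L1) bb sb' hD'
  refine ⟨R, R0, R1.trans ?_, fun w w' a1 a2 a3 a4 a5 => (R2 w w' (by linarith [ha.1])
    (by linarith) (by linarith [ha.1]) (by linarith)).trans ?_⟩
  · simp only [hDp]
    calc _ ≤ exp (β / 2 * L) * (σ ^ 2 * N * exp ((2 - β) * L)) := by gcongr
      _ = σ ^ 2 * N * (exp (β / 2 * L) * exp ((2 - β) * L)) := by ring
      _ = _ := by rw [← exp_add]; congr 2; ring
  refine add_le_add_left (add_le_add_left (win_num hC hD L1 s0 s2 e5 e1 a5 ?_ ?_) _) _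
  · exact le_trans (le_of_eq (sum_congr rfl fun t _ => hDp t)) hX
  · have h : exp (c / 2 * L) ≤ σ * U := by
      have h2 : exp (c / 2 * L) * exp (3 * c / 8 * L) ≤
          exp 2 * (exp (-(7 * ((1 - 2 * c) * L) / 8)) * exp (7 * ((1 - c) * (L - 2)) / 8)) := by
        rw [← exp_add, ← exp_add, ← exp_add]
        exact exp_le_exp.2 (by linarith)
      have h3 : exp (-(7 * ((1 - 2 * c) * L) / 8)) * exp (7 * ((1 - c) * (L - 2)) / 8) ≤
          σ * (2 * U) := mul_le_mul hσ (by linarith) (exp_pos _).le s0.le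
      have h4 := mul_le_mul_of_nonneg_left e3 (exp_pos (c / 2 * L)).le
      have h5 := mul_le_mul_of_nonneg_left h3 (exp_pos 2).le
      refine le_of_mul_le_mul_left ?_ (exp_pos 2)
      linarith
    have hA : 6 ≤ (⌈6 / c⌉₊ : ℝ) * c := (div_le_iff₀ hc).1 (Nat.le_ceil _)
    calc exp (3 * L) ≤ exp (((⌈6 / c⌉₊ + 1 : ℕ) : ℝ) * (c / 2 * L)) := by
          refine exp_le_exp.2 ?_
          have := mul_le_mul_of_nonneg_right hA (zero_le_one.trans L1)
          push_cast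
          linarith
      _ = exp (c / 2 * L) ^ (⌈6 / c⌉₊ + 1) := exp_nat_mul _ _
      _ ≤ _ := by gcongr

theorem ee2_row (hHB : HB_s) (hZ2 : Z2_s) (hWIN2 : WIN2_s) (hNSUM : NSUM_s) (hNSM : NSM_s)
    (hNZ : NZ_s) (hNMO : NMO_s) : EE2_s := by
  intro c hc hc'
  obtain ⟨C0, hC0, hz⟩ := hZ2
  obtain ⟨β, β0, hb⟩ := hWIN2 C0 c hC0 hc hc'
  refine ⟨β / 2, half_pos β0, fun A => ?_⟩
  obtain ⟨B, hb⟩ := hb (A + 26)
  refine ⟨B, ?_⟩
  filter_upwards [hb, eventually_ge_atTop (24000 * 41 ^ 24 : ℝ),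
    ev_lin ((24000 * 41 ^ 24) ^ 2) (β / 2) (half_pos β0) 50,
    eventually_ge_atTop (100 : ℝ)] with L hb hev hev2 hL σ N hσ hσ' hN
  have hσ0 : 0 < σ := (exp_pos _).trans_le hσ
  have hσ1 : 2 * σ ≤ 1 := by
    have h2 : sh c L ≤ exp (-3) := exp_le_exp.2 (by nlinarith)
    have h3 := add_one_le_exp (3 : ℝ)
    rw [exp_neg] at h2
    have h4 : sh c L ≤ 1 / 4 := h2.trans (by rw [one_div]; exact inv_anti₀ four_pos (by linarith))
    linarith
  obtain ⟨z, hz1, hz2, hz3⟩ : ∃ z : ℕ, 1 ≤ z ∧ L + 1 ≤ 12 * Real.log z ∧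
      Real.log z ≤ L / 12 + 1 := by
    have e0 := exp_pos ((L + 1) / 12)
    have e1 := Nat.le_ceil (exp ((L + 1) / 12))
    have e2 := Nat.ceil_lt_add_one e0.le
    have e3 : 1 ≤ exp ((L + 1) / 12) := one_le_exp (by positivity)
    refine ⟨⌈exp ((L + 1) / 12)⌉₊, Nat.ceil_pos.2 e0, ?_, ?_⟩
    · have := Real.log_le_log e0 e1
      rw [Real.log_exp] at this
      linarith
    · have := Real.log_le_log (e0.trans_le e1) (show _ ≤ 2 * exp ((L + 1) / 12) by linarith)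
      rw [Real.log_mul two_ne_zero e0.ne', Real.log_exp] at this
      linarith [Real.log_two_lt_d9]
  obtain ⟨a, g, ha, hg, hv⟩ := hHB z (L + 2) hz1 (by linarith)
  obtain ⟨J, hJ1, hJ2⟩ : ∃ J : ℕ, 40 * (L + 1) + 1 ≤ J ∧ (J : ℝ) < 40 * (L + 1) + 2 :=
    ⟨⌈40 * (L + 1) + 1⌉₊, Nat.le_ceil _, by
      linarith [Nat.ceil_lt_add_one (show 0 ≤ 40 * (L + 1) + 1 by positivity)]⟩
  have hE : Eqv (L + 1) vM (∑ j ∈ range 12, a j •
      ∑ l ∈ Fintype.piFinset fun _ : Fin 24 => range J,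
        ∏ i, pc (g j i) (((l i : ℝ) - 1) / 40)) := by
    have e1 : Eqv (L + 1) vM (∑ j ∈ range 12, a j • ∏ i, ∑ l ∈ range J,
        pc (g j i) (((l : ℝ) - 1) / 40)) := fun n hn => by
      rw [hv n (hn.trans hz2)]
      refine ee_sum _ (fun j _ m hm => ?_) n hn
      rw [ArithmeticFunction.smul_map, ArithmeticFunction.smul_map,
        Eqv.prod univ (fun i _ => part (g j i) hJ1) m hm]
    refine fun n hn => (e1 n hn).trans (congrArg (fun f : AF => f n) ?_)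
    exact sum_congr rfl fun j _ => by rw [prod_univ_sum]
  have L0 : 0 < L := by linarith
  have hE0 : 0 ≤ σ * (exp L / L ^ (A + 26)) := by positivity
  have hQ0 : 0 ≤ σ ^ 2 * N * exp ((2 - β) * L) := by positivity
  have h5 : (J : ℝ) ≤ 41 * L := by linarith
  have cd : (#(Fintype.piFinset fun _ : Fin 24 => range J) : ℝ) = J ^ 24 := by
    rw [Fintype.card_piFinset, prod_const, card_range, card_univ, Fintype.card_fin, Nat.cast_pow]
  refine hNMO σ L _ _ _ _ _ N _ _ hσ1 hE ?_ ?_ (hNSUM _ _ σ L _ _ _ N _ fun j _ =>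
    hNSM σ L _ _ _ _ _ N _ (ha j) (by positivity) (hNSUM _ _ σ L _ (σ * (exp L / L ^ (A + 26)))
      (σ ^ 2 * N * exp ((2 - β) * L)) N _ fun l hl => ?_))
  · rw [card_range, cd]
    calc ((12 : ℕ) : ℝ) * (1000 * (L + 2) * (J ^ 24 * (σ * (exp L / L ^ (A + 26)))))
        ≤ (12 : ℕ) * (1000 * (2 * L) * ((41 * L) ^ 24 * (σ * (exp L / L ^ (A + 26))))) := by
          gcongr; linarith
      _ = 24000 * 41 ^ 24 * (σ * (exp L / L ^ A) / L) := by push_cast; field_simp; ring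
      _ ≤ L * (σ * (exp L / L ^ A) / L) := by gcongr
      _ = _ := by field_simp
  · rw [card_range, cd]
    calc ((12 : ℕ) : ℝ) ^ 2 * ((1000 * (L + 2)) ^ 2 *
          ((J ^ 24) ^ 2 * (σ ^ 2 * N * exp ((2 - β) * L))))
        ≤ (12 : ℕ) ^ 2 * ((1000 * (2 * L)) ^ 2 *
          (((41 * L) ^ 24) ^ 2 * (σ ^ 2 * N * exp ((2 - β) * L)))) := by
          gcongr; linarith
      _ = (24000 * 41 ^ 24) ^ 2 * L ^ 50 * (σ ^ 2 * N * exp ((2 - β) * L)) := by push_cast; ring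
      _ ≤ exp (β / 2 * L) * (σ ^ 2 * N * exp ((2 - β) * L)) := by gcongr
      _ = σ ^ 2 * N * (exp (β / 2 * L) * exp ((2 - β) * L)) := by ring
      _ = _ := by rw [← exp_add]; congr 2; ring
  · by_cases h2 : ∃ i, pc (g j i) (((l i : ℝ) - 1) / 40) = 0
    · obtain ⟨i, hi⟩ := h2
      rw [prod_eq_zero (mem_univ i) hi]
      exact hNZ _ _ _ _ _ _ _ hE0 hQ0 fun w _ _ => by simp [Hw]
    push Not at h2
    have h3 : ∀ i, -(1 / 20) ≤ ((l i : ℝ) - 1) / 40 := fun i => by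
      linarith [Nat.cast_nonneg (α := ℝ) (l i)]
    have h4 : ∀ i, ((l i : ℝ) - 1) / 40 ≤ L + 1 := fun i => by
      have : ((l i + 1 : ℕ) : ℝ) ≤ J := by
        exact_mod_cast mem_range.1 (Fintype.mem_piFinset.1 hl i)
      push_cast at this
      linarith
    refine hb _ _ σ N (fun i => ?_) (fun i => pc_sp _ _) (fun i => ?_) h4 hσ hσ' hN
    · rcases hg j i with ⟨_, -, h, -⟩ | h | h
      · exact pc_bd h _
      · rw [h]; exact pc_bd ee_ze _
      · rw [h]; exact ee_lg (by linarith) (by linarith [h4 i])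
    · rcases hg j i with ⟨z', h, -, h'⟩ | h | h
      · exact Or.inr ⟨⟨z', by rw [h]⟩, (ee_ne h' (h2 i)).2.trans hz3⟩
      · rw [h]; exact Or.inl (hz _).1
      · rw [h]
        exact Or.inl ((hz _).2 _ (by linarith) (abs_le.2 ⟨by linarith [h3 i], by linarith [h4 i]⟩))

theorem gr_split (g : ℕ → ℝ) (M J : ℕ) :
    ∑ j ∈ range (J * M), g j = ∑ i ∈ range J, ∑ r ∈ range M, g (i * M + r) := by
  induction J with
  | zero => simp
  | succ J ih => rw [Nat.succ_mul, sum_range_add, ih, sum_range_succ]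

theorem gr_pig (g : ℕ → ℝ) (hg : ∀ j, 0 ≤ g j) (M J N : ℕ) (hM : 0 < M) (hJ : J * M ≤ N) (Q : ℝ)
    (hQ : ∑ j ∈ range N, g j ≤ Q) : ∃ r, r < M ∧ ∑ i ∈ range J, g (i * M + r) ≤ Q / M := by
  have h1 : ∑ j ∈ range (J * M), g j ≤ ∑ j ∈ range N, g j :=
    sum_le_sum_of_subset_of_nonneg (range_subset_range.2 hJ) fun j _ _ => hg j
  rw [gr_split, sum_comm] at h1
  have hM' : (0 : ℝ) < M := by exact_mod_cast hM
  have h2 : ∑ r ∈ range M, ∑ i ∈ range J, g (i * M + r) ≤ ∑ _r ∈ range M, Q / M := by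
    rw [sum_const, card_range, nsmul_eq_mul, mul_div_cancel₀ _ hM'.ne']
    linarith
  obtain ⟨r, hr, h⟩ := exists_le_of_sum_le (nonempty_range_iff.2 hM.ne') h2
  exact ⟨r, mem_range.1 hr, h⟩

theorem gr_sh (c L : ℝ) (hc : 0 < c) (hc1 : c ≤ 1 / 10) (hL : 2000 ≤ L) :
    sh c L ≤ 1 / 1000 ∧ 2 * π / (⌈exp L⌉₊ : ℝ) ≤ sh c L := by
  unfold sh
  constructor
  · have h1 : 1000 ≤ 7 * ((1 - 2 * c) * L) / 8 := by nlinarith
    have h2 := add_one_le_exp (7 * ((1 - 2 * c) * L) / 8)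
    rw [exp_neg, inv_eq_one_div]
    exact one_div_le_one_div_of_le (by norm_num) (by linarith)
  · have h0 : exp L ≤ (⌈exp L⌉₊ : ℝ) := Nat.le_ceil _
    have hp := exp_pos L
    rw [div_le_iff₀ (by linarith)]
    have h1 : 8 ≤ -(7 * ((1 - 2 * c) * L) / 8) + L := by nlinarith
    have h2 := add_one_le_exp (-(7 * ((1 - 2 * c) * L) / 8) + L)
    rw [exp_add] at h2
    have h3 := mul_le_mul_of_nonneg_left h0 (exp_pos (-(7 * ((1 - 2 * c) * L) / 8))).le
    have h4 := pi_le_four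
    linarith

theorem gr_row (hEE2 : EE2_s) : GR_s := by
  intro c hc hc1
  obtain ⟨β, hβ, h⟩ := hEE2 c hc hc1
  refine ⟨β / 4, by positivity, fun A => ?_⟩
  obtain ⟨B, hB⟩ := h A
  refine ⟨B, ?_⟩
  filter_upwards [hB, eventually_ge_atTop (2000 : ℝ), eventually_ge_atTop (16 / β)] with L hE hL hLβ
  obtain ⟨hs1, hs2⟩ := gr_sh c L hc hc1 hL
  have hs0 : 0 < sh c L := exp_pos _
  have hN0 : exp L ≤ (⌈exp L⌉₊ : ℝ) := Nat.le_ceil _
  generalize ⌈exp L⌉₊ = N at hs2 hN0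
  have hNp : (0 : ℝ) < N := lt_of_lt_of_le (exp_pos L) hN0
  have hτ : 0 < 2 * π / (N : ℝ) := by positivity
  have hτN : 2 * π / (N : ℝ) * N = 2 * π := div_mul_cancel₀ _ hNp.ne'
  have hM1 : sh c L / (2 * π / (N : ℝ)) ≤ (⌈sh c L / (2 * π / (N : ℝ))⌉₊ : ℝ) := Nat.le_ceil _
  have hM2 : (⌈sh c L / (2 * π / (N : ℝ))⌉₊ : ℝ) < sh c L / (2 * π / (N : ℝ)) + 1 :=
    Nat.ceil_lt_add_one (by positivity)
  generalize ⌈sh c L / (2 * π / (N : ℝ))⌉₊ = M at hM1 hM2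
  have hMp : (0 : ℝ) < M := lt_of_lt_of_le (by positivity) hM1
  have hM0 : 0 < M := by exact_mod_cast hMp
  have hSq : ∀ R : ℝ → ℝ, Sq N L R = ∑ j ∈ range N, R (L - j * (2 * π / N)) ^ 2 := fun _ => rfl
  generalize 2 * π / (N : ℝ) = τ at hs2 hτ hτN hM1 hM2 hSq
  have hσ1 : sh c L ≤ M * τ := (div_le_iff₀ hτ).1 hM1
  have hσ2 : M * τ ≤ 2 * sh c L := by
    have h1 := mul_lt_mul_of_pos_right hM2 hτ
    rw [add_mul, div_mul_cancel₀ _ hτ.ne'] at h1
    linarith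
  have hσ0 : 0 < M * τ := by positivity
  obtain ⟨R, hR0, hRQ, hRN⟩ := hE (M * τ) N hσ1 hσ2 hN0
  have hJ1 : (⌊3 / 4 / (M * τ)⌋₊ : ℝ) ≤ 3 / 4 / (M * τ) := Nat.floor_le (by positivity)
  have hJ2 : 3 / 4 / (M * τ) < (⌊3 / 4 / (M * τ)⌋₊ : ℝ) + 1 := Nat.lt_floor_add_one _
  generalize ⌊3 / 4 / (M * τ)⌋₊ = J at hJ1 hJ2
  rw [le_div_iff₀ hσ0] at hJ1
  rw [div_lt_iff₀ hσ0] at hJ2
  obtain ⟨I, rfl⟩ : ∃ I, J = I + 1 := by
    rcases J with _ | I
    · exfalso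
      simp only [Nat.cast_zero, zero_add, one_mul] at hJ2
      linarith
    · exact ⟨I, rfl⟩
  have hJN : (I + 1) * M ≤ N := by
    have h1 : (((I + 1) * M : ℕ) : ℝ) * τ ≤ N * τ := by
      have := pi_gt_three
      rw [Nat.cast_mul, mul_assoc]
      linarith
    exact_mod_cast le_of_mul_le_mul_right h1 hτ
  rw [hSq] at hRQ
  obtain ⟨r, hr, hq⟩ := gr_pig (fun j => R (L - j * τ) ^ 2) (fun j => sq_nonneg _) M (I + 1) N hM0
    hJN _ hRQ
  have hr1 : (r : ℝ) * τ ≤ M * τ := mul_le_mul_of_nonneg_right (by exact_mod_cast hr.le) hτ.le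
  have hr0 : 0 ≤ (r : ℝ) * τ := by positivity
  push_cast at hJ1 hJ2
  have hw : ∀ i : ℕ, i ≤ I → L - 3 / 4 ≤ L - r * τ - I * (M * τ) + i * (M * τ) ∧
      L - r * τ - I * (M * τ) + i * (M * τ) ≤ L := by
    intro i hi
    have h1 : (i : ℝ) * (M * τ) ≤ I * (M * τ) :=
      mul_le_mul_of_nonneg_right (by exact_mod_cast hi) hσ0.le
    have h2 : 0 ≤ (i : ℝ) * (M * τ) := by positivity
    constructor <;> linarith
  refine ⟨M * τ, L - r * τ - I * (M * τ), I,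
    fun i => R (L - r * τ - I * (M * τ) + i * (M * τ)), hσ1, hσ2, by linarith, by linarith,
    fun i => hR0 _, ?_, fun i i' hi hi' hd => ?_⟩
  · have h1 : ∑ i ∈ range (I + 1), R (L - r * τ - I * (M * τ) + i * (M * τ)) ^ 2 =
        ∑ i ∈ range (I + 1), R (L - ((i * M + r : ℕ) : ℝ) * τ) ^ 2 := by
      rw [← sum_range_reflect (fun i => R (L - ((i * M + r : ℕ) : ℝ) * τ) ^ 2) (I + 1)]
      refine sum_congr rfl fun i hi => ?_
      have hi' : i ≤ I := Nat.lt_succ_iff.1 (mem_range.1 hi)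
      have h2 : L - r * τ - I * (M * τ) + i * (M * τ) =
          L - (((I + 1 - 1 - i) * M + r : ℕ) : ℝ) * τ := by
        rw [Nat.add_sub_cancel, Nat.cast_add, Nat.cast_mul, Nat.cast_sub hi']
        ring
      rw [h2]
    have h2 := sq_sum_le_card_mul_sum_sq (s := range (I + 1))
      (f := fun i : ℕ => R (L - r * τ - I * (M * τ) + i * (M * τ)))
    rw [card_range, h1] at h2
    have h3 : (M * τ) ^ 2 * N * exp ((2 - β) * L) / M =
        (M * τ) * (2 * π) * exp ((2 - β) * L) := by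
      rw [← hτN]
      field_simp
    rw [h3] at hq
    have he := exp_pos ((2 - β) * L)
    have h4 : ((I + 1 : ℕ) : ℝ) * ((M * τ) * (2 * π) * exp ((2 - β) * L)) ≤
        8 * exp ((2 - β) * L) := by
      have h5 : ((I : ℝ) + 1) * (M * τ) * (2 * π) ≤ 3 / 4 * (2 * 4) :=
        mul_le_mul hJ1 (by linarith [pi_le_four]) (by positivity) (by norm_num)
      push_cast
      nlinarith
    have h6 : 8 * exp ((2 - β) * L) ≤ exp ((1 - β / 4) * L) ^ 2 := by
      have h7 : exp ((1 - β / 4) * L) ^ 2 = exp (β * L / 2) * exp ((2 - β) * L) := by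
        rw [sq, ← exp_add, ← exp_add]
        exact congrArg exp (by ring)
      have h8 : 16 ≤ L * β := (div_le_iff₀ hβ).1 hLβ
      have h9 := add_one_le_exp (β * L / 2)
      rw [h7]
      exact mul_le_mul_of_nonneg_right (by linarith) he.le
    have h10 := mul_le_mul_of_nonneg_left hq (Nat.cast_nonneg (α := ℝ) (I + 1))
    exact le_trans (le_abs_self _) (abs_le_of_sq_le_sq (by linarith) (exp_pos _).le)
  · refine hRN _ _ (hw i hi).1 (hw i hi).2 (hw i' hi').1 (hw i' hi').2 ?_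
    have h1 : L - r * τ - I * (M * τ) + i * (M * τ) - (L - r * τ - I * (M * τ) + i' * (M * τ)) =
        ((i : ℝ) - i') * (M * τ) := by ring
    rw [h1, abs_mul, abs_of_pos hσ0]
    exact hd

end Pool.Agent.MP_2033ac_nt.AA
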