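import Pool.Agent.MP_2033ac_nt.AA.Defs
import Pool.Agent.MP_2033ac_nt.PN.RFIN2
import Pool.Agent.MP_2033ac_nt.PN.RMAIN2

/-! Primes in almost all short intervals: from windows to intervals. -/

namespace Pool.Agent.MP_2033ac_nt.AA
open Finset Real Filter
open Pool.Agent.MP_71ac24_nt.H14 (ei ei_add norm_ei ei_zero conj_ei norm_ei_sub)
open Pool.Agent.MP_71ac24_nt Pool.Agent.MP_a404e6_nt.W Pool.Agent.MP_2033ac_nt.PN

theorem e2_edge {σ y la lb v : ℝ} {J : ℕ} {P : Prop} [Decidable P] (hσ : 0 < σ) (g1 : y ≤ la)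
    (g2 : la ≤ y + σ) (h1 : y + J * σ ≤ lb) (h2 : lb ≤ y + (J + 1) * σ)
    (hP : P ↔ la < v ∧ v ≤ lb) :
    |(if P then 1 else 0) -
      (smoothTransition ((v - y) / σ) - smoothTransition ((v - y) / σ - J))| ≤
      (if y < v ∧ v ≤ y + 2 * σ then (1 : ℝ) else 0) +
        if y + J * σ < v ∧ v ≤ y + J * σ + 2 * σ then (1 : ℝ) else 0 := by
  obtain ⟨u, rfl⟩ : ∃ u, v = y + u * σ := ⟨(v - y) / σ, by field_simp; ring⟩
  rw [add_sub_cancel_left, mul_div_cancel_right₀ _ hσ.ne']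
  have hJ : (0 : ℝ) ≤ J := J.cast_nonneg
  have m1 := smoothTransition.monotone (sub_le_self u hJ)
  have a1 := smoothTransition.nonneg (u - J)
  have a2 := smoothTransition.le_one u
  have hb : |(if P then 1 else 0) - (smoothTransition u - smoothTransition (u - J))| ≤ 1 := by
    rw [abs_le]; split_ifs <;> constructor <;> linarith
  by_cases c1 : y < y + u * σ ∧ y + u * σ ≤ y + 2 * σ
  · rw [if_pos c1]; refine hb.trans ?_; split_ifs <;> norm_num
  by_cases c2 : y + J * σ < y + u * σ ∧ y + u * σ ≤ y + J * σ + 2 * σ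
  · rw [if_pos c2, if_neg c1, zero_add]; exact hb
  rw [if_neg c1, if_neg c2, add_zero, abs_nonpos_iff]
  by_cases c3 : y < y + u * σ
  · have c6 := not_le.1 fun h => c1 ⟨c3, h⟩
    have u2 : 2 < u := lt_of_mul_lt_mul_right (by linarith) hσ.le
    rw [smoothTransition.one_of_one_le (by linarith)]
    by_cases c4 : y + J * σ < y + u * σ
    · have c5 := not_le.1 fun h => c2 ⟨c4, h⟩
      have : (J : ℝ) + 1 < u := lt_of_mul_lt_mul_right (by linarith) hσ.le
      rw [smoothTransition.one_of_one_le (by linarith), if_neg fun h => by linarith [(hP.1 h).2]]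
      ring
    · have : u ≤ J := le_of_mul_le_mul_right (by linarith) hσ
      rw [smoothTransition.zero_of_nonpos (by linarith), if_pos (hP.2 ⟨by linarith, by linarith⟩)]
      ring
  · have : u ≤ 0 := le_of_mul_le_mul_right (by linarith) hσ
    rw [smoothTransition.zero_of_nonpos this, smoothTransition.zero_of_nonpos (by linarith),
      if_neg fun h => c3 (by linarith [(hP.1 h).1])]
    ring

theorem e2_row : E2_s := by
  intro a b J σ y B f hσ hσ' hx a1 ab hb g1 g2 g3 g4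
  have hB : 0 ≤ B := (hb 0 (Nat.zero_le _)).1.trans (hb 0 (Nat.zero_le _)).2
  have a0 : (0 : ℝ) < a := by exact_mod_cast a1
  have b0 : (0 : ℝ) < b := by exact_mod_cast a1.trans ab
  have hw : ∀ z, z ≤ Real.log b →
      Hw σ f z = ∑ m ∈ Icc 1 (2 * b), f m * ps ((Real.log m - z) / σ) :=
    fun z hz => Hw_eq hσ fun m hm => Or.inr (by
      have h1 : (2 : ℝ) * b ≤ m := by exact_mod_cast hm.le
      have h2 := log_le_log (by positivity) h1
      rw [log_mul two_ne_zero b0.ne'] at h2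
      linarith [log_two_gt_d9])
  have eL : exp (Real.log b) = b := exp_log b0
  have J0 : 0 ≤ J * σ := by positivity
  have hz : ∀ j ∈ Ico 0 J, y + j * σ ≤ Real.log b := fun j hj => by
    have : (j : ℝ) ≤ J := by exact_mod_cast (mem_Ico.1 hj).2.le
    linarith [mul_le_mul_of_nonneg_right this hσ.le]
  have s1 : ∑ m ∈ Ioc a b, f m = ∑ m ∈ Icc 1 (2 * b), f m * if m ∈ Ioc a b then 1 else 0 := by
    simp only [mul_ite, mul_one, mul_zero]
    rw [sum_ite_mem, inter_eq_right.2]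
    intro m hm
    rw [mem_Ioc] at hm; rw [mem_Icc]; omega
  rw [range_eq_Ico, s1, sum_congr rfl fun j hj => hw _ (hz j hj), sum_comm, ← sum_sub_distrib]
  have c1 := dd_cnt (N := 2 * b) (a := y) hσ hσ' hx (by rw [← eL, exp_le_exp]; linarith)
  have c2 := dd_cnt (N := 2 * b) (a := y + J * σ) hσ hσ' hx (by rw [← eL, exp_le_exp]; linarith)
  refine (abs_sum_le_sum_abs _ _).trans (le_trans ?_
    ((mul_le_mul_of_nonneg_left (add_le_add c1 c2) hB).trans_eq (by ring)))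
  rw [← sum_add_distrib, mul_sum]
  refine sum_le_sum fun m hm => ?_
  have m0 : (0 : ℝ) < m := by exact_mod_cast (mem_Icc.1 hm).1
  have : ∀ j : ℕ, (Real.log m - (y + j * σ)) / σ = (Real.log m - y) / σ - j := fun j => by
    field_simp; ring
  simp only [this]
  rw [← mul_sum, ps_sum _ (Nat.zero_le J), ← mul_sub, abs_mul, Nat.cast_zero, sub_zero,
    abs_of_nonneg (hb m (mem_Icc.1 hm).2).1]
  refine mul_le_mul (hb m (mem_Icc.1 hm).2).2 (e2_edge hσ g1 g2 g3 g4 ?_) (abs_nonneg _) hB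
  rw [mem_Ioc, log_lt_log_iff a0 m0, log_le_log_iff m0 b0, Nat.cast_lt, Nat.cast_le]

theorem one_row (hE2 : E2_s) : ONE_s := by
  intro σ w0 L I x k s0 s1 hx x2 h1 h2 h3
  have x2' : (2 : ℝ) ≤ x := by exact_mod_cast x2
  have x0 : (0 : ℝ) < x := by linarith
  have k0 : (0 : ℝ) ≤ k := Nat.cast_nonneg k
  have e : ((x + k : ℕ) : ℝ) = x + k := Nat.cast_add x k
  have b0 : (0 : ℝ) < ((x + k : ℕ) : ℝ) := by linarith
  have l1 : Real.log x ≤ Real.log ((x + k : ℕ) : ℝ) := log_le_log x0 (by linarith)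
  have fl : ∀ n : ℕ, w0 ≤ Real.log n → w0 + ix σ w0 n * σ ≤ Real.log n ∧
      Real.log n ≤ w0 + (ix σ w0 n + 1) * σ := fun n hn => by
    have a1 := (le_div_iff₀ s0).1 (Nat.floor_le (div_nonneg (sub_nonneg.2 hn) s0.le))
    have a2 := (div_lt_iff₀ s0).1 (Nat.lt_floor_add_one ((Real.log n - w0) / σ))
    unfold ix
    constructor <;> linarith
  obtain ⟨p1, p2⟩ := fl x h1
  obtain ⟨q1, q2⟩ := fl (x + k) (h1.trans l1)
  have pq : ix σ w0 x ≤ ix σ w0 (x + k) :=
    Nat.floor_mono (div_le_div_of_nonneg_right (by linarith) s0.le)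
  have qI : ix σ w0 (x + k) ≤ I := by
    have : (ix σ w0 (x + k) : ℝ) ≤ I := le_of_mul_le_mul_right (by linarith) s0
    exact_mod_cast this
  generalize ix σ w0 x = p at *
  generalize ix σ w0 (x + k) = q at *
  obtain ⟨J, rfl⟩ := Nat.exists_eq_add_of_le pq
  push_cast at q1 q2
  rw [← e] at q1 q2
  have bL : ((x + k : ℕ) : ℝ) ≤ exp L := (log_le_iff_le_exp b0).1 h3
  have l0 : 0 ≤ Real.log ((x + k : ℕ) : ℝ) := Real.log_natCast_nonneg _
  refine ⟨pq, qI, ?_, ?_, fun i hi => ?_⟩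
  · have a := hE2 x (x + k) J σ (w0 + p * σ) (2 * Real.log ((x + k : ℕ) : ℝ)) vM s0 s1
      (hx.trans (mul_le_mul_of_nonneg_left (by linarith) s0.le)) (by omega) (by omega)
      (fun m hm => fin2_vm (by omega) hm) p1 (by linarith) (by linarith) (by linarith)
    have e2 : ∑ i ∈ Ico p (p + J), Hw σ vM (w0 + i * σ) =
        ∑ j ∈ range J, Hw σ vM (w0 + p * σ + j * σ) := by
      rw [sum_Ico_eq_sum_range, Nat.add_sub_cancel_left]
      refine sum_congr rfl fun j _ => ?_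
      congr 1
      push_cast
      ring
    rw [e2]
    refine a.trans ?_
    have := mul_le_mul h3 (mul_le_mul_of_nonneg_left bL s0.le) (by positivity) (l0.trans h3)
    linarith
  · have d1 : Real.log ((x + k : ℕ) : ℝ) - Real.log x ≤ k / x := by
      have := log_le_sub_one_of_pos (div_pos b0 x0)
      rw [log_div b0.ne' x0.ne', e, add_div, div_self x0.ne'] at this
      rw [e]
      linarith
    have d2 : k / x - (k / x) ^ 2 ≤ Real.log ((x + k : ℕ) : ℝ) - Real.log x := by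
      have := log_le_sub_one_of_pos (div_pos x0 b0)
      rw [log_div x0.ne' b0.ne'] at this
      have u0 : 0 ≤ (k : ℝ) / x := by positivity
      have e3 : (x : ℝ) / ((x + k : ℕ) : ℝ) = 1 / (1 + k / x) := by rw [e]; field_simp
      have e4 : 1 / (1 + (k : ℝ) / x) ≤ 1 - k / x + (k / x) ^ 2 := by
        rw [div_le_iff₀ (by positivity)]
        nlinarith [pow_nonneg u0 3]
      linarith
    have d3 := mul_le_mul_of_nonneg_left d1 x0.le
    have d4 := mul_le_mul_of_nonneg_left d2 x0.le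
    have e5 : (x : ℝ) * (k / x) = k := by field_simp
    have e6 : (x : ℝ) * (k / x - (k / x) ^ 2) = k - k ^ 2 / x := by field_simp
    have d5 : x * (J * σ) ≤ x * (Real.log ((x + k : ℕ) : ℝ) - Real.log x + σ) :=
      mul_le_mul_of_nonneg_left (by linarith) x0.le
    have d6 : x * (Real.log ((x + k : ℕ) : ℝ) - Real.log x - σ) ≤ x * (J * σ) :=
      mul_le_mul_of_nonneg_left (by linarith) x0.le
    have d7 : 0 ≤ (k : ℝ) ^ 2 / x := by positivity
    push_cast
    rw [abs_le]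
    constructor <;> linarith
  · obtain ⟨i1, i2⟩ := mem_Ico.1 hi
    have j1 : (p : ℝ) * σ ≤ i * σ := mul_le_mul_of_nonneg_right (by exact_mod_cast i1) s0.le
    have j2 : (i : ℝ) * σ ≤ (p + J) * σ :=
      mul_le_mul_of_nonneg_right (by exact_mod_cast i2.le) s0.le
    refine ⟨?_, (le_log_iff_exp_le b0).1 (by linarith)⟩
    have a1 : exp (Real.log x + -σ) ≤ exp (w0 + i * σ) := exp_le_exp.2 (by linarith)
    rw [exp_add, exp_log x0] at a1
    linarith [mul_le_mul_of_nonneg_left (add_one_le_exp (-σ)) x0.le]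

theorem two_row : TWO_s := by
  intro G R p q q' Δ h1 h2 h3 H
  have J0 : (0 : ℝ) < (q' : ℝ) - p := by
    have : (p : ℝ) < q' := by exact_mod_cast h3
    linarith
  have c1 : (#(Ico p q) : ℝ) = (q : ℝ) - p := by rw [Nat.card_Ico, Nat.cast_sub h1]
  have c2 : (#(Ico p q') : ℝ) = (q' : ℝ) - p := by rw [Nat.card_Ico, Nat.cast_sub h3.le]
  have e1 : ∑ i ∈ Ico p q, ∑ i' ∈ Ico p q', (G i - G i') =
      ((q' : ℝ) - p) * ∑ i ∈ Ico p q, G i - ((q : ℝ) - p) * ∑ i ∈ Ico p q', G i := by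
    simp only [sum_sub_distrib, sum_const, nsmul_eq_mul, c1, c2, ← mul_sum]
  have e2 : ∑ i ∈ Ico p q, ∑ i' ∈ Ico p q', (Δ + R i + R i') =
      ((q' : ℝ) - p) * (((q : ℝ) - p) * Δ) + ((q' : ℝ) - p) * ∑ i ∈ Ico p q, R i +
        ((q : ℝ) - p) * ∑ i ∈ Ico p q', R i := by
    simp only [sum_add_distrib, sum_const, nsmul_eq_mul, c1, c2, ← mul_sum]
    ring
  have e3 : |∑ i ∈ Ico p q, ∑ i' ∈ Ico p q', (G i - G i')| ≤
      ∑ i ∈ Ico p q, ∑ i' ∈ Ico p q', (Δ + R i + R i') :=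
    (abs_sum_le_sum_abs _ _).trans (sum_le_sum fun i hi => (abs_sum_le_sum_abs _ _).trans
      (sum_le_sum fun i' hi' => H i (Ico_subset_Ico_right h2 hi) i' hi'))
  rw [e1, e2] at e3
  refine le_of_mul_le_mul_left ?_ J0
  rw [← abs_of_pos J0, ← abs_mul, abs_of_pos J0]
  refine le_trans (le_of_eq ?_) (e3.trans (le_of_eq ?_))
  · congr 1
    field_simp
  · field_simp

theorem cmp_row : CMP_s := by
  intro h K a a' W θ h0 K0 t0 t1 ha ha' hW
  obtain ⟨a1, a2⟩ := abs_le.1 ha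
  obtain ⟨b1, b2⟩ := abs_le.1 ha'
  obtain ⟨w1, w2⟩ := abs_le.1 hW
  have tK : θ * K ≤ 1 / 10 * K := mul_le_mul_of_nonneg_right t1 K0.le
  have th : θ * h ≤ 1 / 10 * h := mul_le_mul_of_nonneg_right t1 h0.le
  have A0 : 0 < a' := by linarith
  have hK := mul_pos h0 K0
  have u1 : a * W ≤ ((1 + θ) * h) * ((1 + θ) * K) :=
    mul_le_mul (by linarith) (by linarith) (by linarith) (by positivity)
  have u2 : ((1 - θ) * h) * ((1 - θ) * K) ≤ a * W :=
    mul_le_mul (by linarith) (by linarith) (by linarith) (by linarith)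
  have u3 : (1 + 4 * θ) * h * ((1 - θ) * K) ≤ (1 + 4 * θ) * h * a' :=
    mul_le_mul_of_nonneg_left (by linarith) (by positivity)
  have u4 : (1 - 4 * θ) * h * a' ≤ (1 - 4 * θ) * h * ((1 + θ) * K) :=
    mul_le_mul_of_nonneg_left (by linarith) (mul_nonneg (by linarith) h0.le)
  have u5 : 0 ≤ θ * (1 - 5 * θ) * (h * K) := mul_nonneg (mul_nonneg t0 (by linarith)) hK.le
  have u6 : 0 ≤ θ * (1 + 5 * θ) * (h * K) := by positivity
  refine ⟨abs_le.2 ⟨?_, ?_⟩, ?_⟩
  · rw [div_mul_eq_mul_div, le_sub_iff_add_le, le_div_iff₀ A0]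
    linarith
  · rw [div_mul_eq_mul_div, sub_le_iff_le_add, div_le_iff₀ A0]
    linarith
  · rw [div_le_div_iff₀ A0 K0]
    have v1 : a * K ≤ (11 / 10 * h) * K := mul_le_mul_of_nonneg_right (by linarith) K0.le
    have v2 : 2 * h * (9 / 10 * K) ≤ 2 * h * a' := mul_le_mul_of_nonneg_left (by linarith) (by positivity)
    linarith

theorem fin3_mono {σ w0 : ℝ} {a b : ℕ} (s0 : 0 < σ) (a0 : 0 < a) (ab : a ≤ b) :
    ix σ w0 a ≤ ix σ w0 b :=
  Nat.floor_le_floor (div_le_div_of_nonneg_right (sub_le_sub_right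
    (Real.log_le_log (by exact_mod_cast a0) (by exact_mod_cast ab)) _) s0.le)

theorem fin3_core (hONE : ONE_s) (hTWO : TWO_s) (hCMP : CMP_s) {σ w0 L η : ℝ} {I x h K : ℕ}
    {R : ℕ → ℝ} (s0 : 0 < σ) (s2 : 1 ≤ σ * x) (x2 : 2 ≤ x) (w1 : w0 ≤ Real.log x)
    (w2 : Real.log ((x + K : ℕ) : ℝ) ≤ w0 + I * σ) (w3 : Real.log ((x + K : ℕ) : ℝ) ≤ L)
    (hK : h ≤ K) (h0 : 0 < h) (e0 : 0 < η) (e1 : η ≤ 1 / 170) (L1 : 1 ≤ L) (xE : x ≤ exp L)
    (Ex : exp L ≤ 3 * x) (a1 : L * (σ * exp L) ≤ η * h) (a2 : K ≤ η * x)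
    (hP : |∑ m ∈ Ioc x (x + K), vM m - K| ≤ η * K) (R0 : ∀ i, 0 ≤ R i)
    (RT : 2 * ∑ i ∈ range (I + 1), R i ≤ η * K)
    (hG : ∀ i i' : ℕ, i ≤ I → i' ≤ I → |(i : ℝ) - i'| * σ ≤ 2 * K / x →
      |Hw σ vM (w0 + i * σ) - Hw σ vM (w0 + i' * σ)| ≤ σ * (exp L * η) + R i + R i') :
    |∑ m ∈ Ioc x (x + h), vM m - h| ≤ 91 * (η * h) + ∑ m ∈ Ioc (x - h) (x + h),
      ∑ i ∈ (range (I + 1)).filter (fun i : ℕ => ⌈exp (w0 + i * σ)⌉₊ = m), R i := by
  have x0 : (0 : ℝ) < x := by exact_mod_cast (by omega : 0 < x)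
  have h0' : (0 : ℝ) < h := by exact_mod_cast h0
  have hK' : (h : ℝ) ≤ K := by exact_mod_cast hK
  have K0 : (0 : ℝ) < K := h0'.trans_le hK'
  have sx : σ * x ≤ η * h := by
    have u1 := mul_le_mul_of_nonneg_left xE s0.le
    have u2 := le_mul_of_one_le_left (show 0 ≤ σ * exp L by positivity) L1
    linarith
  have eK : η * h ≤ η * K := mul_le_mul_of_nonneg_left hK' e0.le
  have eh := mul_le_mul_of_nonneg_right e1 h0'.le
  have eK1 := mul_le_mul_of_nonneg_right e1 K0.le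
  have ex := mul_le_mul_of_nonneg_right e1 x0.le
  have p1 := mul_pos e0 h0'
  have s1 : σ ≤ 1 / 10 := le_of_mul_le_mul_right (by linarith) x0
  have lg : Real.log ((x + h : ℕ) : ℝ) ≤ Real.log ((x + K : ℕ) : ℝ) := Real.log_le_log
    (by exact_mod_cast (by omega : 0 < x + h)) (by exact_mod_cast (by omega : x + h ≤ x + K))
  obtain ⟨b1, b2, b3, b4, b5⟩ := hONE σ w0 L I x h s0 s1 s2 x2 w1 (lg.trans w2) (lg.trans w3)
  obtain ⟨-, c2, c3, c4, -⟩ := hONE σ w0 L I x K s0 s1 s2 x2 w1 w2 w3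
  have m1 := fin3_mono (w0 := w0) s0 (by omega : 0 < x + h) (by omega : x + h ≤ x + K)
  generalize ix σ w0 x = p at *
  generalize ix σ w0 (x + h) = q at *
  generalize ix σ w0 (x + K) = q' at *
  have sq : ∀ k : ℝ, 0 ≤ k → k ≤ K → k ^ 2 / x ≤ η * k := fun k k0 k1 => by
    rw [div_le_iff₀ x0]
    linarith [mul_le_mul_of_nonneg_left (k1.trans a2) k0]
  have d1 : |x * σ * ((q : ℝ) - p) - h| ≤ 17 * η * h :=
    b4.trans (by linarith [sq h h0'.le hK'])
  have d2 : |x * σ * ((q' : ℝ) - p) - K| ≤ 17 * η * K :=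
    c4.trans (by linarith [sq K K0.le le_rfl])
  have d3 : |∑ i ∈ Ico p q', Hw σ vM (w0 + i * σ) - K| ≤ 17 * η * K := by
    rw [abs_le] at c3 hP ⊢
    constructor <;> linarith [c3.1, c3.2, hP.1, hP.2]
  obtain ⟨f1, f2⟩ := hCMP h K _ _ _ (17 * η) h0' K0 (by positivity) (by linarith) d1 d2 d3
  have xs : 0 < (x : ℝ) * σ := by positivity
  rw [mul_div_mul_left _ _ xs.ne'] at f1 f2
  obtain ⟨d21, d22⟩ := abs_le.1 d2
  have pq : p < q' := by
    by_contra g
    have u1 : (q' : ℝ) ≤ p := by exact_mod_cast not_lt.1 g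
    have u2 := mul_nonneg xs.le (sub_nonneg.2 u1)
    linarith
  have t := hTWO (fun i => Hw σ vM (w0 + i * σ)) R p q q' (σ * (exp L * η)) b1 m1 pq
    fun i hi i' hi' => by
      obtain ⟨u1, u2⟩ := mem_Ico.1 hi
      obtain ⟨u3, u4⟩ := mem_Ico.1 hi'
      refine hG i i' (by omega) (by omega) ?_
      have v1 : (p : ℝ) ≤ i := by exact_mod_cast u1
      have v2 : (i : ℝ) ≤ q' := by exact_mod_cast u2.le
      have v3 : (p : ℝ) ≤ i' := by exact_mod_cast u3
      have v4 : (i' : ℝ) ≤ q' := by exact_mod_cast u4.le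
      have v5 : |(i : ℝ) - i'| ≤ (q' : ℝ) - p := abs_le.2 ⟨by linarith, by linarith⟩
      rw [le_div_iff₀ x0]
      linarith [mul_le_mul_of_nonneg_left v5 xs.le]
  have j1 : ((q : ℝ) - p) * (σ * (exp L * η)) ≤ 6 * (η * h) := by
    have qp : (0 : ℝ) ≤ (q : ℝ) - p := sub_nonneg.2 (by exact_mod_cast b1)
    have u1 := mul_le_mul_of_nonneg_left Ex (show 0 ≤ ((q : ℝ) - p) * σ * η by positivity)
    have u2 : x * σ * ((q : ℝ) - p) ≤ 2 * h := by linarith [(abs_le.1 d1).2]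
    have u3 := mul_le_mul_of_nonneg_left u2 e0.le
    linarith
  have j2 : ((q : ℝ) - p) / ((q' : ℝ) - p) * ∑ i ∈ Ico p q', R i ≤ η * h := by
    have u1 : ∑ i ∈ Ico p q', R i ≤ ∑ i ∈ range (I + 1), R i :=
      sum_le_sum_of_subset_of_nonneg (fun i hi => mem_range.2 (by have := mem_Ico.1 hi; omega))
        fun i _ _ => R0 i
    refine (mul_le_mul f2 (show _ ≤ η * K / 2 by linarith) (sum_nonneg fun i _ => R0 i)
      (by positivity)).trans_eq ?_
    field_simp
  have j3 : ∑ i ∈ Ico p q, R i ≤ ∑ m ∈ Ioc (x - h) (x + h),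
      ∑ i ∈ (range (I + 1)).filter (fun i : ℕ => ⌈exp (w0 + i * σ)⌉₊ = m), R i := by
    rw [sum_fiberwise_eq_sum_filter]
    refine sum_le_sum_of_subset_of_nonneg (fun i hi => mem_filter.2
      ⟨mem_range.2 (by have := mem_Ico.1 hi; omega), mem_Ioc.2
        ⟨Nat.lt_ceil.2 ?_, Nat.ceil_le.2 (b5 i hi).2⟩⟩) fun i _ _ => R0 i
    have hx : h ≤ x := by exact_mod_cast (show (h : ℝ) ≤ x by linarith)
    rw [Nat.cast_sub hx]
    linarith [(b5 i hi).1]
  rw [abs_le] at b3 t f1 ⊢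
  constructor <;> linarith [b3.1, b3.2, t.1, t.2, f1.1, f1.2]

theorem fin3_row (hGR : GR_s) (hONE : ONE_s) (hTWO : TWO_s) (hCMP : CMP_s) (hPNT : PNT_s) :
    FIN3_s := by
  intro ε hε
  obtain ⟨c, c0, c1, cε⟩ : ∃ c : ℝ, 0 < c ∧ c ≤ 1 / 10 ∧ 2 * c ≤ ε :=
    ⟨min (1 / 10) (ε / 2), by positivity, min_le_left _ _,
      by linarith [min_le_right (1 / 10) (ε / 2)]⟩
  obtain ⟨β, β0, hG⟩ := hGR c c0 c1
  refine ⟨β / 2, half_pos β0, fun A => ?_⟩
  obtain ⟨B, hG⟩ := hG (A + 1)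
  obtain ⟨N, hP⟩ := eventually_atTop.1 (hPNT (2 * (B + (A + 1) + (A + 1) + 1)))
  have tl : Tendsto (fun x : ℕ => Real.log x + 18 / 25) atTop atTop :=
    tendsto_atTop_add_const_right _ _ (tendsto_log_atTop.comp tendsto_natCast_atTop_atTop)
  filter_upwards [tl.eventually hG, tl.eventually (ev_lin 2 (c / 8) (by positivity) (A + 1 + 1)),
    tl.eventually (ev_lin 6 (1 / 3) (by norm_num) (B + (A + 1))),
    tl.eventually (ev_lin 12 β β0 (B + (A + 1) + (A + 1))), tl.eventually_ge_atTop 170,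
    tl.eventually_ge_atTop (2 / β), tl.eventually_ge_atTop (8 / c), eventually_ge_atTop N,
    eventually_ge_atTop 2] with X hG g1 g2 g3 L1 L2 L3 XN X2
  obtain ⟨σ, w0, I, R, s1, s2, w1, w2, R0, RT, hG⟩ := hG
  obtain ⟨L, hL⟩ : ∃ L : ℝ, L = Real.log X + 18 / 25 := ⟨_, rfl⟩
  rw [← hL] at s1 s2 w1 w2 RT hG g1 g2 g3 L1 L2 L3
  have X0 : (0 : ℝ) < X := by exact_mod_cast (by omega : 0 < X)
  have lX : Real.log X = L - 18 / 25 := by rw [hL]; ring
  have eX : exp (L - 18 / 25) = X := by rw [← lX, exp_log X0]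
  rw [div_le_iff₀ β0] at L2
  rw [div_le_iff₀ c0] at L3
  have L0 : 0 < L := by linarith
  have E3 : exp L ≤ 3 * X := by
    have u1 : exp L = X * exp (18 / 25) := by rw [← eX, ← exp_add]; congr 1; ring
    have u2 : exp (18 / 25) ≤ 3 :=
      (exp_le_exp.2 (by norm_num : (18 / 25 : ℝ) ≤ 1)).trans (by linarith [exp_one_lt_d9])
    linarith [mul_le_mul_of_nonneg_left u2 X0.le]
  have E2 : 201 / 100 * (X : ℝ) ≤ exp (L - 1 / 100) := by
    have u1 : exp (L - 1 / 100) = X * (exp (Real.log 2) * exp (71 / 100 - Real.log 2)) := by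
      rw [← eX, ← exp_add, ← exp_add]; congr 1; ring
    have u2 : 201 / 200 ≤ exp (71 / 100 - Real.log 2) := by
      linarith [add_one_le_exp (71 / 100 - Real.log 2), log_two_lt_d9]
    rw [exp_log two_pos] at u1
    linarith [mul_le_mul_of_nonneg_left u2 X0.le]
  refine ⟨fun m => ∑ i ∈ (range (I + 1)).filter (fun i : ℕ => ⌈exp (w0 + i * σ)⌉₊ = m), R i,
    fun m => sum_nonneg fun i _ => R0 i, ?_, fun x h x1 x2 h1 h2 => ?_⟩
  · rw [sum_fiberwise_eq_sum_filter, rpow_def_of_pos X0, lX]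
    refine (sum_le_sum_of_subset_of_nonneg (filter_subset _ _) fun i _ _ => R0 i).trans
      (RT.trans (exp_le_exp.2 (by linarith)))
  replace h1 := (rpow_le_rpow_of_exponent_le (show (1 : ℝ) ≤ X by exact_mod_cast (by omega : 1 ≤ X))
    (show 1 / 8 + 2 * c ≤ 1 / 8 + ε by linarith)).trans h1
  rw [rpow_def_of_pos X0, lX] at h1 h2
  rw [lX]
  have x1' : (X : ℝ) ≤ x := by exact_mod_cast x1
  have x2' : (x : ℝ) ≤ 2 * X := by exact_mod_cast x2
  have x0 : (0 : ℝ) < x := by linarith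
  have h0 : (0 : ℝ) < h := (exp_pos _).trans_le h1
  have lA : (L - 18 / 25) ^ A ≤ L ^ A := pow_le_pow_left₀ (by linarith) (by linarith) A
  have lA0 : 0 < (L - 18 / 25) ^ A := pow_pos (by linarith) A
  have ln : ∀ y : ℝ, X ≤ y → L ^ (B + (A + 1) + (A + 1) + 1) ≤
      Real.log y ^ (2 * (B + (A + 1) + (A + 1) + 1)) := fun y hy => by
    have u1 := Real.log_le_log X0 hy
    rw [pow_mul]
    exact pow_le_pow_left₀ L0.le (by nlinarith) _
  have A1 : 1 ≤ L ^ A := one_le_pow₀ (by linarith)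
  have B1 : 1 ≤ L ^ B := one_le_pow₀ (by linarith)
  have PA : L ^ (A + 1) = L ^ A * L := pow_succ L A
  rw [pow_succ L (B + (A + 1) + (A + 1))] at ln
  rw [pow_succ L (A + 1)] at g1
  rw [pow_add L (B + (A + 1))] at ln g3
  rw [pow_add L B] at ln g3 g2
  generalize L ^ (A + 1) = P at *
  generalize L ^ B = S at *
  have P1 : 170 ≤ P := by nlinarith
  have P0 : 0 < P := by linarith
  have S0 : 0 < S := by linarith
  have Q0 : 0 < S * P := by positivity
  obtain ⟨K, hK⟩ : ∃ K, K = ⌊(X : ℝ) / (S * P)⌋₊ := ⟨_, rfl⟩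
  have K1 : (K : ℝ) ≤ X / (S * P) := hK ▸ Nat.floor_le (by positivity)
  have K2 : (X : ℝ) / (S * P) < K + 1 := hK ▸ Nat.lt_floor_add_one _
  have K3 : 2 * h ≤ K := hK ▸ Nat.le_floor (by
    have u1 : (h : ℝ) ≤ exp (2 / 3 * L) := h2.trans (exp_le_exp.2 (by linarith))
    have u2 := mul_le_mul g2 u1 h0.le (exp_pos _).le
    rw [← exp_add, show 1 / 3 * L + 2 / 3 * L = L by ring] at u2
    rw [le_div_iff₀ Q0]
    push_cast
    linarith)
  have hp : 0 < h := by exact_mod_cast h0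
  have K0 : (1 : ℝ) ≤ K := by exact_mod_cast (by omega : 1 ≤ K)
  rw [le_div_iff₀ Q0] at K1
  rw [div_lt_iff₀ Q0] at K2
  have K4 : (X : ℝ) ≤ 2 * (K * (S * P)) := by linarith [mul_le_mul_of_nonneg_right K0 Q0.le]
  have K5 : K * P ≤ X := by
    linarith [mul_le_mul_of_nonneg_right B1 (show 0 ≤ K * P by positivity)]
  have K6 : 170 * (K : ℝ) ≤ X := by
    linarith [mul_le_mul_of_nonneg_left P1 (show (0 : ℝ) ≤ K by positivity)]
  have sp : 0 < sh c L := exp_pos _
  have s0 : 0 < σ := sp.trans_le s1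
  have cL := mul_pos c0 L0
  have lK : Real.log ((x + K : ℕ) : ℝ) ≤ L - 1 / 100 := by
    rw [Real.log_le_iff_le_exp (by push_cast; linarith)]
    push_cast
    linarith
  have key := fin3_core hONE hTWO hCMP (L := L) (η := 1 / P) (I := I) (x := x) (h := h) (K := K)
    (w0 := w0) (R := R) s0
    (by
      have u1 : 1 ≤ sh c L * X := by
        rw [← eX, sh, ← exp_add]
        exact one_le_exp (by linarith)
      exact u1.trans (mul_le_mul s1 x1' X0.le s0.le))
    (by omega) (by linarith [Real.log_le_log X0 x1']) (lK.trans w2) (by linarith) (by omega) hp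
    (by positivity) (one_div_le_one_div_of_le (by norm_num) P1) (by linarith)
    (by linarith [exp_le_exp.2 (show L - 1 / 100 ≤ L by linarith)]) (by linarith)
    (by
      rw [one_div_mul_eq_div, le_div_iff₀ P0]
      have u1 := mul_le_mul_of_nonneg_right s2 (show 0 ≤ exp L * (P * L) by positivity)
      have u2 := mul_le_mul_of_nonneg_right g1 (show 0 ≤ sh c L * exp L by positivity)
      have u3 : exp (c / 8 * L) * (sh c L * exp L) ≤ h := by
        rw [sh, ← exp_add, ← exp_add]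
        exact (exp_le_exp.2 (by linarith)).trans h1
      linarith)
    (by rw [one_div_mul_eq_div, le_div_iff₀ P0]; linarith)
    (by
      have u1 := hP (x + K) (by omega) K (by
        have : (K : ℝ) ≤ x := by linarith
        have : K ≤ x := by exact_mod_cast this
        omega)
      rw [Nat.add_sub_cancel] at u1
      refine u1.trans ((div_le_div_of_nonneg_left (Nat.cast_nonneg _) (by positivity)
        (ln _ (by push_cast; linarith))).trans ?_)
      rw [one_div_mul_eq_div, div_le_div_iff₀ (by positivity) P0]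
      push_cast
      have u2 : (x : ℝ) + K ≤ K * (S * P) * L := by
        linarith [mul_le_mul_of_nonneg_left L1 (show 0 ≤ K * (S * P) by positivity)]
      linarith [mul_le_mul_of_nonneg_right u2 P0.le])
    R0
    (by
      rw [one_div_mul_eq_div, le_div_iff₀ P0]
      have u1 := mul_le_mul_of_nonneg_left g3 (exp_pos ((1 - β) * L)).le
      rw [← exp_add, show (1 - β) * L + β * L = L by ring] at u1
      have u2 : 2 * exp ((1 - β) * L) * P ≤ K := le_of_mul_le_mul_right (by linarith) Q0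
      linarith [mul_le_mul_of_nonneg_right RT P0.le])
    (fun i i' a1 a2 a3 => by
      rw [mul_one_div]
      refine hG i i' a1 a2 (a3.trans ?_)
      rw [div_le_div_iff₀ x0 S0]
      linarith [mul_le_mul_of_nonneg_left P1 (show 0 ≤ K * S by positivity),
        mul_nonneg (show (0 : ℝ) ≤ K by positivity) S0.le])
  refine key.trans (add_le_add_left ?_ _)
  rw [one_div_mul_eq_div, ← mul_div_assoc, div_le_div_iff₀ P0 lA0, PA]
  have u1 := mul_le_mul_of_nonneg_left lA h0.le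
  have u2 := mul_le_mul_of_nonneg_left L1 (show 0 ≤ h * L ^ A by positivity)
  have u3 : 0 ≤ h * L ^ A := by positivity
  linarith

theorem max_one (ρ : ℕ → ℝ) (X H : ℕ) (T η : ℝ) (h0 : ∀ m, 0 ≤ ρ m)
    (hT : ∑ m ∈ range (4 * X + 1), ρ m ≤ T) (hη : 0 < η) (H0 : 0 < H) (HX : H ≤ 2 * X) :
    (#((Icc X (2 * X)).filter fun x => η * H / 2 < ∑ m ∈ Ioc (x - H) (x + H), ρ m) : ℝ) ≤
      4 * (T / η) := by
  set E := (Icc X (2 * X)).filter fun x => η * H / 2 < ∑ m ∈ Ioc (x - H) (x + H), ρ m with hE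
  have H0' : (0 : ℝ) < H := by exact_mod_cast H0
  have s1 : #E • (η * H / 2) ≤ ∑ x ∈ E, ∑ m ∈ Ioc (x - H) (x + H), ρ m :=
    card_nsmul_le_sum _ _ _ fun x hx => (mem_filter.1 hx).2.le
  have s2 : ∑ x ∈ E, ∑ m ∈ Ioc (x - H) (x + H), ρ m =
      ∑ m ∈ range (4 * X + 1), ∑ x ∈ E.filter (fun x => m ∈ Ioc (x - H) (x + H)), ρ m := by
    refine sum_comm' fun x m => ?_
    simp only [mem_filter, mem_range, mem_Ioc, hE, mem_Icc]
    constructor
    · rintro ⟨a, b⟩
      exact ⟨⟨a, b⟩, by omega⟩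
    · rintro ⟨⟨a, b⟩, -⟩
      exact ⟨a, b⟩
  have s3 : ∀ m, ∑ x ∈ E.filter (fun x => m ∈ Ioc (x - H) (x + H)), ρ m ≤ 2 * H * ρ m := fun m => by
    rw [sum_const, nsmul_eq_mul]
    refine mul_le_mul_of_nonneg_right ?_ (h0 m)
    have : E.filter (fun x => m ∈ Ioc (x - H) (x + H)) ⊆ Ico (m - H) (m + H) := fun x hx => by
      have := mem_Ioc.1 (mem_filter.1 hx).2
      rw [mem_Ico]
      omega
    have h2 := card_le_card this
    rw [Nat.card_Ico] at h2
    exact_mod_cast h2.trans (by omega)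
  have s4 := (sum_le_sum fun m (_ : m ∈ range (4 * X + 1)) => s3 m)
  rw [← s2, ← mul_sum] at s4
  rw [nsmul_eq_mul] at s1
  have s5 := s1.trans (s4.trans (mul_le_mul_of_nonneg_left hT (by positivity)))
  rw [← mul_div_assoc, le_div_iff₀ hη]
  refine le_of_mul_le_mul_right ?_ H0'
  linarith

theorem max_row : MAX_s := by
  intro ρ X T η h0 hT hη hX
  have T0 : 0 ≤ T := (sum_nonneg fun m _ => h0 m).trans hT
  refine ⟨((range (Nat.log 2 X + 2)).filter fun k => 2 ^ k ≤ 2 * X).biUnion fun k =>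
    (Icc X (2 * X)).filter fun x => η * (2 ^ k : ℕ) / 2 < ∑ m ∈ Ioc (x - 2 ^ k) (x + 2 ^ k), ρ m,
    ?_, fun x h hx h1 h2 h3 h4 => ?_⟩
  · refine (Nat.cast_le.2 card_biUnion_le).trans ?_
    rw [Nat.cast_sum]
    refine (sum_le_card_nsmul _ _ (4 * (T / η)) fun k hk =>
      max_one ρ X (2 ^ k) T η h0 hT hη (by positivity) (mem_filter.1 hk).2).trans ?_
    rw [nsmul_eq_mul, mul_comm]
    refine mul_le_mul_of_nonneg_left ?_ (by positivity)
    exact_mod_cast (card_filter_le _ _).trans (card_range _).le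
  · have k1 : h < 2 ^ (Nat.log 2 h + 1) := Nat.lt_pow_succ_log_self one_lt_two h
    have k2 : 2 ^ Nat.log 2 h ≤ h := Nat.pow_log_le_self 2 (by omega)
    have k3 : Nat.log 2 h ≤ Nat.log 2 X := Nat.log_mono_right h4
    have k4 : 2 ^ (Nat.log 2 h + 1) ≤ 2 * h := by rw [pow_succ]; omega
    have k5 : Nat.log 2 h + 1 < Nat.log 2 X + 2 := by omega
    generalize Nat.log 2 h + 1 = k at k1 k4 k5
    have k6 : ¬ η * (2 ^ k : ℕ) / 2 < ∑ m ∈ Ioc (x - 2 ^ k) (x + 2 ^ k), ρ m := fun g =>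
      hx (mem_biUnion.2 ⟨k, mem_filter.2 ⟨mem_range.2 k5, by omega⟩,
        mem_filter.2 ⟨mem_Icc.2 ⟨h1, h2⟩, g⟩⟩)
    have k7 : ((2 ^ k : ℕ) : ℝ) ≤ 2 * h := by exact_mod_cast k4
    refine (sum_le_sum_of_subset_of_nonneg (Ioc_subset_Ioc (by omega) (by omega))
      fun m _ _ => h0 m).trans ((not_lt.1 k6).trans ?_)
    linarith [mul_le_mul_of_nonneg_left k7 hη.le]

theorem cnv_row : CNV_s := by
  intro x h θ hx t0 H
  have x3 : (3 : ℝ) ≤ x := by exact_mod_cast hx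
  have x0 : (0 : ℝ) < x := by linarith
  have h0 : (0 : ℝ) ≤ h := Nat.cast_nonneg h
  have l1 : 1 ≤ Real.log x := by
    rw [Real.le_log_iff_exp_le x0]
    linarith [Real.exp_one_lt_d9]
  have l2 : Real.log x ≤ Real.log ((x : ℝ) + h) := Real.log_le_log x0 (by linarith)
  have l3 : Real.log ((x : ℝ) + h) - Real.log x ≤ h / x := by
    have := Real.log_le_sub_one_of_pos (show 0 < ((x : ℝ) + h) / x by positivity)
    rw [Real.log_div (by positivity) x0.ne', add_div, div_self x0.ne'] at this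
    linarith
  have an : ∀ t ∈ Set.Icc (x : ℝ) (x + h), 1 / Real.log ((x : ℝ) + h) ≤ 1 / Real.log t ∧
      1 / Real.log t ≤ 1 / Real.log x := fun t ht =>
    ⟨one_div_le_one_div_of_le (by linarith [Real.log_le_log x0 ht.1])
      (Real.log_le_log (by linarith [ht.1]) ht.2),
      one_div_le_one_div_of_le (by linarith) (Real.log_le_log x0 ht.1)⟩
  have ii : IntervalIntegrable (fun t : ℝ => 1 / Real.log t) MeasureTheory.volume x (x + h) := by
    refine ContinuousOn.intervalIntegrable_of_Icc (by linarith) ?_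
    refine continuousOn_const.div (Real.continuousOn_log.mono fun t ht => ?_) fun t ht => ?_
    · exact (show (0 : ℝ) < t by linarith [ht.1]).ne'
    · exact (show 0 < Real.log t by linarith [Real.log_le_log x0 ht.1]).ne'
  have i1 := intervalIntegral.integral_mono_on (show (x : ℝ) ≤ x + h by linarith)
    intervalIntegrable_const ii fun t ht => (an t ht).1
  have i2 := intervalIntegral.integral_mono_on (show (x : ℝ) ≤ x + h by linarith)
    ii intervalIntegrable_const fun t ht => (an t ht).2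
  rw [intervalIntegral.integral_const, smul_eq_mul, add_sub_cancel_left] at i1 i2
  have s1 : #((Ioc x (x + h)).filter Nat.Prime) • Real.log x ≤
      ∑ m ∈ (Ioc x (x + h)).filter Nat.Prime, Real.log m :=
    card_nsmul_le_sum _ _ _ fun m hm => Real.log_le_log x0
      (by exact_mod_cast (mem_Ioc.1 (mem_filter.1 hm).1).1.le)
  have s2 : ∑ m ∈ (Ioc x (x + h)).filter Nat.Prime, Real.log m ≤
      #((Ioc x (x + h)).filter Nat.Prime) • Real.log ((x : ℝ) + h) :=
    sum_le_card_nsmul _ _ _ fun m hm => by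
      obtain ⟨m1, m2⟩ := mem_Ioc.1 (mem_filter.1 hm).1
      exact Real.log_le_log (by exact_mod_cast (by omega : 0 < m)) (by exact_mod_cast m2)
  rw [nsmul_eq_mul] at s1 s2
  obtain ⟨d1, d2⟩ := abs_le.1 H
  generalize (#((Ioc x (x + h)).filter Nat.Prime) : ℝ) = P at *
  generalize ∫ t in (x : ℝ)..(x + h : ℝ), 1 / Real.log t = Z at *
  generalize Real.log ((x : ℝ) + h) = l' at *
  generalize Real.log (x : ℝ) = l at *
  have l0 : 0 < l := by linarith
  have l0' : 0 < l' := by linarith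
  have k1 : P ≤ (h + θ * h) / l := by rw [le_div_iff₀ l0]; linarith
  have k2 : (h - θ * h) / l' ≤ P := by rw [div_le_iff₀ l0']; linarith
  have k3 : 1 / l - 1 / l' ≤ h / x := by
    have e : 1 / l - 1 / l' = (l' - l) / (l * l') := by field_simp
    rw [e]
    exact (div_le_self (by linarith) (by nlinarith)).trans l3
  have k4 := mul_le_mul_of_nonneg_left k3 h0
  have k5 : θ * h / l' ≤ θ * h / l := div_le_div_of_nonneg_left (by positivity) l0 l2
  have e1 : (h + θ * h) / l = h * (1 / l) + θ * h / l := by ring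
  have e2 : (h - θ * h) / l' = h * (1 / l') - θ * h / l' := by ring
  have e3 : (h : ℝ) * (h / x) = (h : ℝ) ^ 2 / x := by ring
  rw [mul_sub] at k4
  rw [abs_le]
  constructor <;> linarith

theorem main3_nn (m : ℕ) : 0 ≤ vM m - (if m.Prime then Real.log m else 0) := by
  split_ifs with h
  · rw [ArithmeticFunction.vonMangoldt_apply_prime h, sub_self]
  · rw [sub_zero]; exact ArithmeticFunction.vonMangoldt_nonneg

theorem main3_mass (n : ℕ) (hn : 1 ≤ n) :
    ∑ m ∈ range (n + 1), (vM m - (if m.Prime then Real.log m else 0)) ≤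
      2 * √(n : ℝ) * Real.log n := by
  have e : range (n + 1) = insert 0 (Ioc 0 n) := by
    ext m
    simp only [mem_range, mem_insert, mem_Ioc]
    omega
  have h := (le_abs_self _).trans (main2_pp 0 n hn)
  rw [sum_filter, ← sum_sub_distrib] at h
  rw [e, sum_insert (by simp), if_neg Nat.not_prime_zero, ArithmeticFunction.map_zero, sub_zero,
    zero_add]
  exact h

theorem main3_log (X : ℕ) (hX : 1 ≤ X) : (Nat.log 2 X : ℝ) ≤ 2 * Real.log X := by
  have h1 : ((2 : ℝ)) ^ Nat.log 2 X ≤ X := by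
    exact_mod_cast Nat.pow_log_le_self 2 (by omega : X ≠ 0)
  have h2 := Real.log_le_log (by positivity) h1
  rw [Real.log_pow] at h2
  have h3 := mul_le_mul_of_nonneg_left Real.log_two_gt_d9.le
    (Nat.cast_nonneg (α := ℝ) (Nat.log 2 X))
  linarith [Nat.cast_nonneg (α := ℝ) (Nat.log 2 X)]

theorem main3_row (hFIN3 : FIN3_s) (hMAX : MAX_s) (hCNV : CNV_s) (hM2 : MAIN2_s) : MAIN3_s := by
  intro ε hε
  obtain ⟨β, b0, hF⟩ := hFIN3 ε hε
  obtain ⟨γ, g0, g1, g2⟩ : ∃ γ : ℝ, 0 < γ ∧ γ ≤ β ∧ γ ≤ 1 / 8 :=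
    ⟨min β (1 / 8), lt_min b0 (by norm_num), min_le_left _ _, min_le_right _ _⟩
  refine ⟨γ / 2, half_pos g0, fun A => ?_⟩
  obtain ⟨N2, hN2⟩ := hM2 (1 / 24) (by norm_num) A
  have c0 : (0 : ℝ) < 108 := by norm_num
  have e1 : ∀ᶠ x : ℕ in atTop, 108 * Real.log x ^ (A + 3) ≤ (x : ℝ) ^ (γ / 2) := by
    have := (isLittleO_log_rpow_rpow_atTop ((A + 3 : ℕ) : ℝ) (half_pos g0)).bound (inv_pos.2 c0)
    filter_upwards [tendsto_natCast_atTop_atTop.eventually this] with x hx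
    rw [Real.norm_eq_abs, Real.norm_eq_abs, Real.rpow_natCast,
      abs_of_nonneg (Real.rpow_nonneg (Nat.cast_nonneg x) _), le_inv_mul_iff₀ c0] at hx
    exact (mul_le_mul_of_nonneg_left (le_abs_self _) c0.le).trans hx
  have e3 : ∀ᶠ x : ℕ in atTop, 3 ≤ Real.log x :=
    (Real.tendsto_log_atTop.comp tendsto_natCast_atTop_atTop).eventually_ge_atTop _
  obtain ⟨N, hN⟩ := eventually_atTop.1 (e1.and (e3.and (hF (A + 1))))
  refine ⟨N + N2 + 4, fun X hX => ?_⟩
  obtain ⟨a1, a3, ρ, r0, r1, r2⟩ := hN X (by omega)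
  have X4 : (4 : ℝ) ≤ X := by exact_mod_cast (by omega : 4 ≤ X)
  have X1 : (1 : ℝ) ≤ X := by linarith
  have X0 : (0 : ℝ) < X := by linarith
  obtain ⟨l, hl⟩ : ∃ l : ℝ, l = Real.log X := ⟨_, rfl⟩
  rw [← hl] at a1 a3 r2 ⊢
  have l0 : 0 < l := by linarith
  have lA : 1 ≤ l ^ A := one_le_pow₀ (by linarith)
  have lA0 : 0 < l ^ A := by linarith
  obtain ⟨Z, hZ⟩ : ∃ Z : ℝ, Z = (X : ℝ) ^ (1 - γ) := ⟨_, rfl⟩
  have Z0 : 0 ≤ Z := hZ ▸ Real.rpow_nonneg X0.le _
  have m1 : (X : ℝ) ^ (1 - β) ≤ Z := hZ ▸ Real.rpow_le_rpow_of_exponent_le X1 (by linarith)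
  have m2 : √((4 * X : ℕ) : ℝ) ≤ 2 * Z := by
    have : √(X : ℝ) ≤ Z := by
      rw [Real.sqrt_eq_rpow, hZ]
      exact Real.rpow_le_rpow_of_exponent_le X1 (by linarith)
    rw [Nat.cast_mul, Nat.cast_ofNat, Real.sqrt_mul (by norm_num),
      (by norm_num : (4 : ℝ) = 2 ^ 2), Real.sqrt_sq zero_le_two]
    linarith
  have m3 : Real.log ((4 * X : ℕ) : ℝ) ≤ 2 * l := by
    rw [Nat.cast_mul, Nat.cast_ofNat, Real.log_mul four_ne_zero X0.ne', ← hl]
    have := Real.log_le_log four_pos X4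
    linarith
  have m4 := mul_le_mul m2 m3 (Real.log_natCast_nonneg _) (by linarith)
  have m5 := main3_mass (4 * X) (by omega)
  have m6 := mul_le_mul_of_nonneg_left a3 Z0
  obtain ⟨E, E1, E2⟩ := hMAX (fun m => ρ m + (vM m - (if m.Prime then Real.log m else 0))) X
    (9 * (Z * l)) (1 / l ^ (A + 1)) (fun m => add_nonneg (r0 m) (main3_nn m))
    (by rw [sum_add_distrib]; linarith) (by positivity) (by omega)
  have l3 : 27 ≤ l ^ 3 := by
    have := pow_le_pow_left₀ (by norm_num) a3 3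
    linarith
  have y1 : 2 * l ^ A ≤ (X : ℝ) ^ (γ / 2) := by
    have := mul_le_mul_of_nonneg_left l3 lA0.le
    rw [pow_add] at a1
    linarith
  refine ⟨E, E1.trans ?_, fun x h x1 x2 xE h1 h2 => ?_⟩
  · have n1 : ((Nat.log 2 X + 2 : ℕ) : ℝ) ≤ 3 * l := by
      have := main3_log X (by omega)
      rw [Nat.cast_add, Nat.cast_ofNat]
      linarith
    refine (mul_le_mul_of_nonneg_left n1 (by positivity)).trans ?_
    rw [(by ring : 1 - γ / 2 = γ / 2 + (1 - γ)), Real.rpow_add X0, ← hZ]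
    refine le_trans (le_of_eq ?_) (mul_le_mul_of_nonneg_right a1 Z0)
    rw [div_div_eq_mul_div, div_one]
    ring
  have xX : (X : ℝ) ≤ x := by exact_mod_cast x1
  have lx : l ≤ Real.log x := hl ▸ Real.log_le_log X0 xX
  have h0 : (0 : ℝ) ≤ h := Nat.cast_nonneg h
  by_cases hc : (h : ℝ) ≤ (X : ℝ) ^ (2 / 3 : ℝ)
  · have h3 : 1 ≤ h := by
      exact_mod_cast (Real.one_le_rpow X1 (by linarith : 0 ≤ 1 / 8 + ε)).trans h1
    have b1 := abs_le.1 (r2 x h x1 x2 h1 hc)
    have b2 := E2 x h xE x1 x2 h3 h2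
    rw [sum_add_distrib] at b2
    have b3 : ∑ m ∈ Ioc x (x + h), (vM m - (if m.Prime then Real.log m else 0)) ≤
        ∑ m ∈ Ioc (x - h) (x + h), (vM m - (if m.Prime then Real.log m else 0)) :=
      sum_le_sum_of_subset_of_nonneg (Ioc_subset_Ioc_left (Nat.sub_le x h))
        fun m _ _ => main3_nn m
    have b4 : 0 ≤ ∑ m ∈ Ioc x (x + h), (vM m - (if m.Prime then Real.log m else 0)) :=
      sum_nonneg fun m _ => main3_nn m
    have b5 : 0 ≤ ∑ m ∈ Ioc (x - h) (x + h), (vM m - (if m.Prime then Real.log m else 0)) :=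
      b4.trans b3
    have b6 : ∑ m ∈ Ioc x (x + h), (vM m - (if m.Prime then Real.log m else 0)) =
        ∑ m ∈ Ioc x (x + h), vM m - ∑ m ∈ (Ioc x (x + h)).filter Nat.Prime, Real.log m := by
      rw [sum_filter, sum_sub_distrib]
    have b7 : 1 / l ^ (A + 1) * h = h / l ^ (A + 1) := by ring
    have b8 : 2 / l ^ (A + 1) * h = 2 * (h / l ^ (A + 1)) := by ring
    refine (hCNV x h (2 / l ^ (A + 1)) (by omega) (by positivity) ?_).trans ?_
    · rw [abs_le]
      constructor <;> linarith [b1.1, b1.2]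
    have d1 : 2 / l ^ (A + 1) * h / Real.log x ≤ h / l ^ A / 2 := by
      refine (div_le_div_of_nonneg_left (by positivity) three_pos (a3.trans lx)).trans ?_
      have d2 : (h : ℝ) / l ^ (A + 1) ≤ h / l ^ A / 3 := by
        rw [pow_succ, ← div_div]
        exact div_le_div_of_nonneg_left (by positivity) three_pos a3
      have d3 : 0 ≤ (h : ℝ) / l ^ A := by positivity
      linarith
    have d4 : (h : ℝ) ^ 2 / x ≤ h / l ^ A / 2 := by
      rw [div_div, div_le_div_iff₀ (by linarith) (by positivity), sq, mul_assoc]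
      refine mul_le_mul_of_nonneg_left (le_trans ?_ xX) h0
      have d5 : (X : ℝ) ^ (γ / 2) ≤ (X : ℝ) ^ (1 / 3 : ℝ) :=
        Real.rpow_le_rpow_of_exponent_le X1 (by linarith)
      have d6 : (X : ℝ) ^ (2 / 3 : ℝ) * (X : ℝ) ^ (1 / 3 : ℝ) = X := by
        rw [← Real.rpow_add X0]
        norm_num
      exact (mul_le_mul hc (by linarith) (by positivity) (by positivity)).trans d6.le
    linarith
  · refine (hN2 x h (by omega) (le_trans ?_ (not_le.1 hc).le) (by omega)).trans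
      (div_le_div_of_nonneg_left h0 lA0 (pow_le_pow_left₀ l0.le lx A))
    have x2' : (x : ℝ) ≤ 2 * X := by exact_mod_cast x2
    refine (Real.rpow_le_rpow (Nat.cast_nonneg x) x2' (by norm_num)).trans ?_
    rw [Real.mul_rpow zero_le_two X0.le,
      (by norm_num : (2 / 3 : ℝ) = 1 / 16 + (9 / 16 + 1 / 24)), Real.rpow_add X0 (1 / 16)]
    refine mul_le_mul_of_nonneg_right ?_ (by positivity)
    have d1 : (2 : ℝ) ^ (9 / 16 + 1 / 24 : ℝ) ≤ 2 ^ (1 : ℝ) :=
      Real.rpow_le_rpow_of_exponent_le one_le_two (by norm_num)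
    have d5 : (X : ℝ) ^ (γ / 2) ≤ (X : ℝ) ^ (1 / 16 : ℝ) :=
      Real.rpow_le_rpow_of_exponent_le X1 (by linarith)
    rw [Real.rpow_one] at d1
    linarith

end Pool.Agent.MP_2033ac_nt.AA
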