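import Pool.Agent.MP_2033ac_nt.PN.All
import Pool.Agent.MP_2033ac_nt.AA.RA
import Pool.Agent.MP_2033ac_nt.AA.RB

namespace Pool.Agent.MP_2033ac_nt.AA
open Pool.Agent.MP_2033ac_nt.PN

theorem main3_all : MAIN3_s :=
  main3_row (fin3_row (gr_row (ee2_row hb_row z2_row (win2_row (wl2_row par_row)
    (box2_row sq_row (lva_row lp_row) lvz_row gen_row (spa_row sq_row hal_row (mz_row mu_all)))
    nz_row) nsum_row nsm_row nz_row nmo_row)) (one_row e2_row) two_row cmp_row pnt_row) max_row
    cnv_row main_all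

end Pool.Agent.MP_2033ac_nt.AA
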