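import Pool.Agent.MP_2033ac_nt.PN.DefsW
import Pool.Agent.MP_2033ac_nt.PN.DefsX

/-! Primes in almost all short intervals: statements. -/

namespace Pool.Agent.MP_2033ac_nt.AA
open Finset Real Filter
open Pool.Agent.MP_71ac24_nt.H14 (ei)
open Pool.Agent.MP_a404e6_nt.W Pool.Agent.MP_2033ac_nt.PN

/-- the sum of squares over `N` equally spaced points of the circle -/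
noncomputable def Sq (N : ℕ) (L : ℝ) (R : ℝ → ℝ) : ℝ :=
  ∑ j ∈ range N, R (L - j * (2 * π / N)) ^ 2

/-- the windows of `f` vary slowly, up to a function with a small mean square -/
def Near (σ L η Δ Q : ℝ) (N : ℕ) (f : AF) : Prop :=
  ∃ R : ℝ → ℝ, (∀ w, 0 ≤ R w) ∧ Sq N L R ≤ Q ∧ ∀ w w' : ℝ, L - 3 / 4 ≤ w → w ≤ L →
    L - 3 / 4 ≤ w' → w' ≤ L → |w - w'| ≤ η → |Hw σ f w - Hw σ f w'| ≤ Δ + R w + R w'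

/-- the width of the window -/
noncomputable def sh (c L : ℝ) : ℝ := exp (-(7 * ((1 - 2 * c) * L) / 8))

/-- the index of the window that contains `log n` -/
noncomputable def ix (σ w0 : ℝ) (n : ℕ) : ℕ := ⌊(Real.log n - w0) / σ⌋₊

def PAR_s : Prop := ∀ (N U : ℕ) (L : ℝ) (T : Finset ℤ) (c : ℤ → ℂ), 2 * U < N →
  T ⊆ Icc (-(U : ℤ)) U →
    Sq N L (fun w => ‖∑ t ∈ T, c t * ei (-(t * w))‖) ≤ N * ∑ t ∈ T, ‖c t‖ ^ 2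

def NSUM_s : Prop := ∀ (ι : Type) (s : Finset ι) (σ L η Δ Q : ℝ) (N : ℕ) (f : ι → AF),
  (∀ i ∈ s, Near σ L η Δ Q N (f i)) → Near σ L η (#s * Δ) (#s ^ 2 * Q) N (∑ i ∈ s, f i)

def NSM_s : Prop := ∀ (σ L η Δ Q a M : ℝ) (N : ℕ) (f : AF), |a| ≤ M → 0 ≤ Δ →
  Near σ L η Δ Q N f → Near σ L η (M * Δ) (M ^ 2 * Q) N (a • f)

def NZ_s : Prop := ∀ (σ L η Δ Q : ℝ) (N : ℕ) (f : AF), 0 ≤ Δ → 0 ≤ Q →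
  (∀ w, L - 3 / 4 ≤ w → w ≤ L → Hw σ f w = 0) → Near σ L η Δ Q N f

def NMO_s : Prop := ∀ (σ L η Δ Q Δ' Q' : ℝ) (N : ℕ) (f g : AF), 2 * σ ≤ 1 → Eqv (L + 1) g f →
  Δ ≤ Δ' → Q ≤ Q' → Near σ L η Δ Q N f → Near σ L η Δ' Q' N g

def BOX2_s : Prop := ∀ C0 c : ℝ, 0 < C0 → 0 < c → c ≤ 1 / 10 → ∃ β : ℝ, 0 < β ∧ ∀ A : ℕ, ∃ B : ℕ,
  ∀ᶠ L : ℝ in atTop, ∀ (g : Fin 24 → AF) (y : Fin 24 → ℝ) (U : ℕ),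
    (∀ i, Bd (g i) 1) → (∀ i, Sp (g i) (y i) (y i + 1 / 20)) →
    (∀ i, Sm C0 (g i) (y i) ∨ Mo L (g i) (y i)) → (∀ i, y i ≤ L + 1) → L - 2 ≤ ∑ i, y i →
    ∑ i, y i ≤ L + 1 → (U : ℝ) ≤ exp (7 * ((1 - c) * (L - 2)) / 8) →
      ∃ S : Finset ℤ, ∑ t ∈ S.filter (fun t : ℤ => L ^ B < |(t : ℝ)|), ∏ i, ‖Dp (g i) t‖ ≤
          exp L / L ^ A ∧
        ∑ t ∈ Icc (-(U : ℤ)) U \ S, (∏ i, ‖Dp (g i) t‖) ^ 2 ≤ exp ((2 - β) * L)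

def WL2_s : Prop := ∀ A : ℕ, ∃ C : ℝ, 0 < C ∧ ∀ (b : AF) (σ t0 a a' B D L : ℝ) (U N : ℕ)
  (S : Finset ℤ), 0 < σ → σ ≤ 1 → 1 ≤ U → 2 * U < N → 1 ≤ t0 → Bd b B → Sp b a a' →
    (∀ t, ‖Dp b t‖ ≤ D) → ∃ R : ℝ → ℝ, (∀ w, 0 ≤ R w) ∧
      Sq N L R ≤ C * (σ ^ 2 * N * ∑ t ∈ Icc (-(U : ℤ)) U \ S, ‖Dp b t‖ ^ 2) ∧
      ∀ y y' : ℝ, y - 3 ≤ a → a' ≤ y + 3 → y' - 3 ≤ a → a' ≤ y' + 3 →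
        |Hw σ b y - Hw σ b y'| ≤ C * (σ * t0 ^ 2 * |y - y'| * D +
          σ * ∑ t ∈ S.filter (fun t : ℤ => t0 < |(t : ℝ)|), ‖Dp b t‖ +
            B * exp a' / (σ * U) ^ (A + 1)) + R y + R y'

def WIN2_s : Prop := ∀ C0 c : ℝ, 0 < C0 → 0 < c → c ≤ 1 / 10 → ∃ β : ℝ, 0 < β ∧ ∀ A : ℕ, ∃ B : ℕ,
  ∀ᶠ L : ℝ in atTop, ∀ (g : Fin 24 → AF) (y : Fin 24 → ℝ) (σ : ℝ) (N : ℕ),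
    (∀ i, Bd (g i) 1) → (∀ i, Sp (g i) (y i) (y i + 1 / 20)) →
    (∀ i, Sm C0 (g i) (y i) ∨ Mo L (g i) (y i)) → (∀ i, y i ≤ L + 1) → sh c L ≤ σ →
    σ ≤ 2 * sh c L → exp L ≤ N →
      Near σ L (1 / L ^ B) (σ * (exp L / L ^ A)) (σ ^ 2 * N * exp ((2 - β) * L)) N (∏ i, g i)

def EE2_s : Prop := ∀ c : ℝ, 0 < c → c ≤ 1 / 10 → ∃ β : ℝ, 0 < β ∧ ∀ A : ℕ, ∃ B : ℕ,
  ∀ᶠ L : ℝ in atTop, ∀ (σ : ℝ) (N : ℕ), sh c L ≤ σ → σ ≤ 2 * sh c L → exp L ≤ N →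
    Near σ L (1 / L ^ B) (σ * (exp L / L ^ A)) (σ ^ 2 * N * exp ((2 - β) * L)) N vM

def GR_s : Prop := ∀ c : ℝ, 0 < c → c ≤ 1 / 10 → ∃ β : ℝ, 0 < β ∧ ∀ A : ℕ, ∃ B : ℕ,
  ∀ᶠ L : ℝ in atTop, ∃ (σ w0 : ℝ) (I : ℕ) (R : ℕ → ℝ), sh c L ≤ σ ∧ σ ≤ 2 * sh c L ∧
    w0 ≤ L - 37 / 50 ∧ L - 1 / 100 ≤ w0 + I * σ ∧ (∀ i, 0 ≤ R i) ∧
    ∑ i ∈ range (I + 1), R i ≤ exp ((1 - β) * L) ∧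
    ∀ i i' : ℕ, i ≤ I → i' ≤ I → |(i : ℝ) - i'| * σ ≤ 1 / L ^ B →
      |Hw σ vM (w0 + i * σ) - Hw σ vM (w0 + i' * σ)| ≤ σ * (exp L / L ^ A) + R i + R i'

def E2_s : Prop := ∀ (a b J : ℕ) (σ y B : ℝ) (f : AF), 0 < σ → σ ≤ 1 / 10 → 1 ≤ σ * b → 1 ≤ a →
  a ≤ b → (∀ m, m ≤ 2 * b → 0 ≤ f m ∧ f m ≤ B) → y ≤ Real.log a → Real.log a ≤ y + σ →
    y + J * σ ≤ Real.log b → Real.log b ≤ y + (J + 1) * σ →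
      |∑ m ∈ Ioc a b, f m - ∑ j ∈ range J, Hw σ f (y + j * σ)| ≤ 8 * (B * (σ * b))

def ONE_s : Prop := ∀ (σ w0 L : ℝ) (I x k : ℕ), 0 < σ → σ ≤ 1 / 10 → 1 ≤ σ * x → 2 ≤ x →
  w0 ≤ Real.log x → Real.log ((x + k : ℕ) : ℝ) ≤ w0 + I * σ → Real.log ((x + k : ℕ) : ℝ) ≤ L →
    ix σ w0 x ≤ ix σ w0 (x + k) ∧ ix σ w0 (x + k) ≤ I ∧
    |∑ m ∈ Ioc x (x + k), vM m - ∑ i ∈ Ico (ix σ w0 x) (ix σ w0 (x + k)),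
      Hw σ vM (w0 + i * σ)| ≤ 16 * (L * (σ * exp L)) ∧
    |x * σ * ((ix σ w0 (x + k) : ℝ) - ix σ w0 x) - k| ≤ (k : ℝ) ^ 2 / x + σ * x ∧
    ∀ i ∈ Ico (ix σ w0 x) (ix σ w0 (x + k)),
      x - σ * x ≤ exp (w0 + i * σ) ∧ exp (w0 + i * σ) ≤ (x + k : ℕ)

def TWO_s : Prop := ∀ (G R : ℕ → ℝ) (p q q' : ℕ) (Δ : ℝ), p ≤ q → q ≤ q' → p < q' →
  (∀ i ∈ Ico p q', ∀ i' ∈ Ico p q', |G i - G i'| ≤ Δ + R i + R i') →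
    |∑ i ∈ Ico p q, G i - ((q : ℝ) - p) / ((q' : ℝ) - p) * ∑ i ∈ Ico p q', G i| ≤
      ((q : ℝ) - p) * Δ + ∑ i ∈ Ico p q, R i +
        ((q : ℝ) - p) / ((q' : ℝ) - p) * ∑ i ∈ Ico p q', R i

def CMP_s : Prop := ∀ h K a a' W θ : ℝ, 0 < h → 0 < K → 0 ≤ θ → θ ≤ 1 / 10 → |a - h| ≤ θ * h →
  |a' - K| ≤ θ * K → |W - K| ≤ θ * K → |a / a' * W - h| ≤ 4 * θ * h ∧ a / a' ≤ 2 * h / K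

def FIN3_s : Prop := ∀ ε : ℝ, 0 < ε → ∃ β : ℝ, 0 < β ∧ ∀ A : ℕ, ∀ᶠ X : ℕ in atTop,
  ∃ ρ : ℕ → ℝ, (∀ m, 0 ≤ ρ m) ∧ ∑ m ∈ range (4 * X + 1), ρ m ≤ (X : ℝ) ^ (1 - β) ∧
    ∀ x h : ℕ, X ≤ x → x ≤ 2 * X → (X : ℝ) ^ (1 / 8 + ε) ≤ h → (h : ℝ) ≤ (X : ℝ) ^ (2 / 3 : ℝ) →
      |∑ m ∈ Ioc x (x + h), vM m - h| ≤ h / Real.log X ^ A + ∑ m ∈ Ioc (x - h) (x + h), ρ m

def MAX_s : Prop := ∀ (ρ : ℕ → ℝ) (X : ℕ) (T η : ℝ), (∀ m, 0 ≤ ρ m) →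
  ∑ m ∈ range (4 * X + 1), ρ m ≤ T → 0 < η → 1 ≤ X → ∃ E : Finset ℕ,
    (#E : ℝ) ≤ 4 * (T / η) * (Nat.log 2 X + 2 : ℕ) ∧ ∀ x h : ℕ, x ∉ E → X ≤ x → x ≤ 2 * X →
      1 ≤ h → h ≤ X → ∑ m ∈ Ioc (x - h) (x + h), ρ m ≤ η * h

def CNV_s : Prop := ∀ (x h : ℕ) (θ : ℝ), 3 ≤ x → 0 ≤ θ →
  |∑ m ∈ (Ioc x (x + h)).filter Nat.Prime, Real.log m - h| ≤ θ * h →
    |(((Ioc x (x + h)).filter Nat.Prime).card : ℝ) - ∫ t in (x : ℝ)..(x + h : ℝ), 1 / Real.log t| ≤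
      θ * h / Real.log x + (h : ℝ) ^ 2 / x

/-- the result -/
def MAIN3_s : Prop := ∀ ε : ℝ, 0 < ε → ∃ δ : ℝ, 0 < δ ∧ ∀ A : ℕ, ∃ N : ℕ, ∀ X : ℕ, N ≤ X →
  ∃ E : Finset ℕ, (E.card : ℝ) ≤ (X : ℝ) ^ (1 - δ) ∧ ∀ x h : ℕ, X ≤ x → x ≤ 2 * X → x ∉ E →
    (X : ℝ) ^ (1 / 8 + ε) ≤ (h : ℝ) → h ≤ X →
      |(((Finset.Ioc x (x + h)).filter Nat.Prime).card : ℝ) -
        ∫ t in (x : ℝ)..(x + h : ℝ), 1 / Real.log t| ≤ (h : ℝ) / Real.log X ^ A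

end Pool.Agent.MP_2033ac_nt.AA
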